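import Pool.Agent.Q150.ESG.J3D

/-!
# Project ESG (helper161), job J3: primes dividing the twist exactly once
-/

set_option autoImplicit false

namespace Pool.Agent.Q150.ESG

open Polynomial
open Pool.Agent.Q14.ESG (norm_aut norm_int_le_one norm_sub_le' norm_sub_eq norm_D norm_rts_le
  aut_rts card_rts twist_prod norm_int_cast)
open Pool.Agent.Q161.ESG

section

variable {l : ℕ} [Fact l.Prime]

open Classical in
/-- the zeros close to the zeros of `h` -/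
theorem case3 (hl : l ≠ 2) {H : HP}
    (hXd : ∀ x ∈ rts H l, ∀ y ∈ rts H l, x ≠ y → ‖x - y‖ = 1)
    {D : PadicAlgCl l} (hD : ∀ τ : PadicAlgCl l ≃ₐ[ℚ_[l]] PadicAlgCl l, τ D = D) (hD0 : D ≠ 0)
    {g : ℕ} (hg : (rts H l).card = 2 * g + 1) {R : Multiset (PadicAlgCl l)}
    (hR : ∀ τ : PadicAlgCl l ≃ₐ[ℚ_[l]] PadicAlgCl l, R.map τ = R)
    {y : PadicAlgCl l → PadicAlgCl l}
    (hy : ∀ (τ : PadicAlgCl l ≃ₐ[ℚ_[l]] PadicAlgCl l) (ρ), y (τ ρ) = τ (y ρ))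
    (hy0 : ∀ ρ ∈ R, y ρ ≠ 0) (hy2 : ∀ ρ ∈ R, y ρ ^ 2 = ∏ x ∈ rts H l, (ρ - D * x))
    (hc : ∀ ρ ∈ R, ∃ x ∈ rts H l, ‖ρ / D - x‖ < 1) :
    ∃ e : PadicAlgCl l → ZMod 2, ∑ x ∈ rts H l, e x = 0 ∧
      (∀ (τ : PadicAlgCl l ≃ₐ[ℚ_[l]] PadicAlgCl l) (x), e (τ x) = e x) ∧
      Sqf (rts H l) (fun x => (R.map (fun ρ => ρ - D * x)).prod * (if e x = 1 then D else 1) *
        uO H e x) := by
  have hX : ∀ (τ : PadicAlgCl l ≃ₐ[ℚ_[l]] PadicAlgCl l), ∀ x ∈ rts H l, τ x ∈ rts H l :=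
    fun τ x hx => aut_rts τ hx
  obtain ⟨e, he⟩ : ∃ e : PadicAlgCl l → ZMod 2, ∀ x, e x = ((Nn D R x + R.card : ℕ) : ZMod 2) :=
    ⟨_, fun _ => rfl⟩
  have hes : ∑ x ∈ rts H l, e x = 0 := by
    have h2 : (2 : ZMod 2) = 0 := rfl
    simp only [he]
    rw [← Nat.cast_sum, Finset.sum_add_distrib, sum_Nn hXd R hc, Finset.sum_const, hg]
    push_cast
    rw [smul_eq_mul]
    push_cast
    linear_combination ((g + 1 : ZMod 2) * R.card) * h2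
  have heτ : ∀ (τ : PadicAlgCl l ≃ₐ[ℚ_[l]] PadicAlgCl l) (x), e (τ x) = e x := by
    intro τ x
    rw [he, he, Nn_aut hD hR]
  refine ⟨e, hes, heτ, ?_⟩
  have hodd : Odd (rts H l).card := ⟨g, hg⟩
  have hepτ : ∀ (τ : PadicAlgCl l ≃ₐ[ℚ_[l]] PadicAlgCl l) (x y), ep e (τ x) (τ y) = ep e x y := by
    intro τ x y
    unfold ep
    rw [heτ, heτ]
  obtain ⟨η, hη⟩ : ∃ η : PadicAlgCl l → PadicAlgCl l, η = fun ρ => y ρ / D ^ g := ⟨_, rfl⟩
  have hητ : ∀ (τ : PadicAlgCl l ≃ₐ[ℚ_[l]] PadicAlgCl l) (ρ), η (τ ρ) = τ (η ρ) := by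
    intro τ ρ
    rw [hη]
    show y (τ ρ) / D ^ g = τ (y ρ / D ^ g)
    rw [hy, map_div₀, map_pow, hD]
  -- the square root parts
  have h1 : Sqf (rts H l) (fun x => ((R.map (fun ρ => tt (rts H l) D η ρ x)).prod) ^ 2) := by
    refine Sqf.of_sq (s := fun x => (R.map (fun ρ => tt (rts H l) D η ρ x)).prod) ?_ ?_
    · intro τ x hx
      exact prod_eqv (X := rts H l) hR (F := fun ρ x => tt (rts H l) D η ρ x)
        (fun τ ρ _ x _ => tt_aut hX hD hητ τ ρ x) τ hx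
    · intro x hx
      refine Multiset.prod_ne_zero ?_
      intro h0
      rw [Multiset.mem_map] at h0
      obtain ⟨ρ, hρ, h2⟩ := h0
      have h3 := split_eq (y := y) hg hD0 hXd (hy2 ρ hρ) hx
      rw [← hη, h2] at h3
      have h4 : ρ - D * x = 0 := by
        rw [h3]; ring
      have h5 := hy2 ρ hρ
      rw [Finset.prod_eq_zero hx h4] at h5
      exact hy0 ρ hρ (pow_eq_zero_iff two_ne_zero |>.1 h5)
  -- the powers of `D`
  obtain ⟨M, hM⟩ : ∃ M : PadicAlgCl l → ℕ, ∀ x, M x = (R.map (fun ρ => 1 - dl D ρ x)).sum :=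
    ⟨_, fun _ => rfl⟩
  obtain ⟨q, hq⟩ : ∃ q : PadicAlgCl l → ℕ, ∀ x, M x + (if e x = 1 then 1 else 0) = 2 * q x := by
    have h2 : ∀ x, ∃ q, M x + (if e x = 1 then 1 else 0) = 2 * q := by
      intro x
      have h3 := D_even he (x := x) (M := M) (n := R.card) (by rw [hM]; exact Nn_le D R x)
      obtain ⟨q, hq⟩ := h3
      exact ⟨q, by rw [hq]; ring⟩
    choose q hq using h2
    exact ⟨q, hq⟩
  have hMτ : ∀ (τ : PadicAlgCl l ≃ₐ[ℚ_[l]] PadicAlgCl l) (x), M (τ x) = M x := by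
    intro τ x
    have h2 := Nn_le D R (τ x)
    have h3 := Nn_le D R x
    rw [← hM] at h2 h3
    rw [Nn_aut hD hR] at h2
    omega
  have hqτ : ∀ (τ : PadicAlgCl l ≃ₐ[ℚ_[l]] PadicAlgCl l) (x), q (τ x) = q x := by
    intro τ x
    have h2 := hq (τ x)
    rw [hMτ, heτ, hq] at h2
    omega
  have h2 : Sqf (rts H l) (fun x => (D ^ q x) ^ 2) := by
    refine Sqf.of_sq (s := fun x => D ^ q x) ?_ ?_
    · intro τ x _
      show D ^ q (τ x) = τ (D ^ q x)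
      rw [map_pow, hD, hqτ]
    · intro x _
      exact pow_ne_zero _ hD0
  -- the units
  have huOτ : ∀ (τ : PadicAlgCl l ≃ₐ[ℚ_[l]] PadicAlgCl l), ∀ x ∈ rts H l,
      uO H e (τ x) = τ (uO H e x) := by
    intro τ x hx
    rw [uO_eq hodd hes hx, uO_eq hodd hes (hX τ x hx),
      prodXe hX τ (fun y => (y - τ x) ^ ep e (τ x) y) x, map_prod]
    refine Finset.prod_congr rfl fun z _ => ?_
    rw [hepτ, map_pow, map_sub]
  obtain ⟨k, hk⟩ : ∃ k : PadicAlgCl l → PadicAlgCl l → ℕ, ∀ x y,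
      Nn D R x + Nn D R y + ep e x y = 2 * k x y := by
    have h3 : ∀ x y, ∃ k, Nn D R x + Nn D R y + ep e x y = 2 * k := by
      intro x y
      obtain ⟨k, hk⟩ := ep_even he x y
      exact ⟨k, by rw [hk]; ring⟩
    choose k hk using h3
    exact ⟨k, hk⟩
  have hkτ : ∀ (τ : PadicAlgCl l ≃ₐ[ℚ_[l]] PadicAlgCl l) (x y), k (τ x) (τ y) = k x y := by
    intro τ x y
    have h3 := hk (τ x) (τ y)
    rw [Nn_aut hD hR, Nn_aut hD hR, hepτ, hk] at h3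
    omega
  have h3 : Sqf (rts H l) (fun x => (R.map (fun ρ => FF (rts H l) D ρ x)).prod * uO H e x) := by
    refine Sqf.of_cg hl hX (a := fun x => ∏ y ∈ (rts H l).erase x, (y - x) ^ k x y) ?_ ?_ ?_
    · intro τ x hx
      show (R.map (fun ρ => FF (rts H l) D ρ (τ x))).prod * uO H e (τ x) =
        τ ((R.map (fun ρ => FF (rts H l) D ρ x)).prod * uO H e x)
      rw [map_mul, huOτ τ x hx, prod_eqv (X := rts H l) hR (F := fun ρ x => FF (rts H l) D ρ x)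
        (fun τ ρ _ x _ => FF_aut hX hD τ ρ x) τ hx]
    · intro x hx
      have h4 : (∏ y ∈ (rts H l).erase x, (y - x) ^ k x y) ^ 2 =
          (∏ y ∈ (rts H l).erase x, (y - x) ^ (Nn D R x + Nn D R y)) *
            ∏ y ∈ (rts H l).erase x, (y - x) ^ ep e x y := by
        rw [← Finset.prod_pow, ← Finset.prod_mul_distrib]
        refine Finset.prod_congr rfl fun z _ => ?_
        rw [← pow_mul, ← pow_add, hk, mul_comm]
      rw [h4]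
      refine Cg.mul ?_ ?_
      · rw [← prod_swap]
        exact Cg.mprod R _ _ fun ρ hρ => FF_cg hg hXd (hc ρ hρ) hx
      · rw [uO_eq hodd hes hx]
        refine Cg.refl ?_
        rw [norm_prod]
        refine Finset.prod_eq_one fun z hz => ?_
        rw [Finset.mem_erase] at hz
        rw [norm_pow, hXd z hz.2 x hx hz.1, one_pow]
    · intro τ x hx
      show Cg (∏ y ∈ (rts H l).erase (τ x), (y - τ x) ^ k (τ x) y)
        (τ (∏ y ∈ (rts H l).erase x, (y - x) ^ k x y))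
      have h4 : ∏ y ∈ (rts H l).erase (τ x), (y - τ x) ^ k (τ x) y =
          τ (∏ y ∈ (rts H l).erase x, (y - x) ^ k x y) := by
        rw [prodXe hX τ (fun y => (y - τ x) ^ k (τ x) y) x, map_prod]
        refine Finset.prod_congr rfl fun z _ => ?_
        rw [hkτ, map_pow, map_sub]
      rw [h4]
      refine Cg.refl ?_
      rw [norm_aut, norm_prod]
      refine Finset.prod_eq_one fun z hz => ?_
      rw [Finset.mem_erase] at hz
      rw [norm_pow, hXd z hz.2 x hx hz.1, one_pow]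
  refine ((h1.mul h2).mul h3).congr fun x hx => ?_
  have h4 : (R.map (fun ρ => ρ - D * x)).prod =
      (R.map (fun ρ => tt (rts H l) D η ρ x)).prod ^ 2 *
        (R.map (fun ρ => FF (rts H l) D ρ x)).prod * D ^ M x := by
    rw [hM, ← prod_pow_sum, ← Multiset.prod_map_pow, ← Multiset.prod_map_mul,
      ← Multiset.prod_map_mul]
    refine congrArg Multiset.prod (Multiset.map_congr rfl fun ρ hρ => ?_)
    rw [hη]
    exact split_eq (y := y) hg hD0 hXd (hy2 ρ hρ) hx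
  have h5 : D ^ M x * (if e x = 1 then D else 1) = (D ^ q x) ^ 2 := by
    rw [← pow_mul, mul_comm (q x) 2, ← hq]
    split_ifs
    · rw [pow_succ]
    · rw [add_zero, mul_one]
  rw [h4, ← h5]
  ring

end

/-- JOB J3 -/
theorem j3 : S_INR → S_J3 := by
  classical
  intro hI l _ hl H hH D hDl hDl2 u v hu huv hcop
  have hDZ : D ≠ 0 := by
    rintro rfl
    exact hDl2 (dvd_zero _)
  have hD0 : (D : PadicAlgCl l) ≠ 0 := Int.cast_ne_zero.2 hDZ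
  have hDτ : ∀ τ : PadicAlgCl l ≃ₐ[ℚ_[l]] PadicAlgCl l, τ (D : PadicAlgCl l) = D :=
    fun τ => map_intCast τ D
  have hX : ∀ (τ : PadicAlgCl l ≃ₐ[ℚ_[l]] PadicAlgCl l), ∀ x ∈ rts H l, τ x ∈ rts H l :=
    fun τ x hx => aut_rts τ hx
  obtain ⟨g, hg⟩ : ∃ g, (rts H l).card = 2 * g + 1 := by
    rw [card_rts hH]
    exact H.odd
  have haev : ∀ ρ : PadicAlgCl l, aeval ρ (pol (H.twist D) ℚ_[l]) = ∏ x ∈ rts H l, (ρ - D * x) := by
    intro ρ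
    rw [← twist_prod hH hD0, ← pol_map (H.twist D) (algebraMap ℚ_[l] (PadicAlgCl l)),
      eval_map_algebraMap]
  have hval : ∀ ρ : PadicAlgCl l, aeval ρ u = 0 → (aeval ρ v) ^ 2 = ∏ x ∈ rts H l, (ρ - D * x) := by
    intro ρ hρ
    obtain ⟨w, hw⟩ := huv
    have h1 := congrArg (aeval ρ) hw
    rw [map_sub, map_mul, hρ, zero_mul, map_pow, haev] at h1
    exact (sub_eq_zero.1 h1).symm
  have hne : ∀ ρ : PadicAlgCl l, aeval ρ u = 0 → aeval ρ v ≠ 0 := by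
    intro ρ hρ h
    have h1 := hval ρ hρ
    rw [h, ← haev] at h1
    obtain ⟨a, b, hab⟩ := hcop
    have h2 := congrArg (aeval ρ) hab
    rw [map_add, map_mul, map_mul, hρ, ← h1, map_one] at h2
    simp at h2
  obtain ⟨R, hRdef⟩ : ∃ R, R = u.aroots (PadicAlgCl l) := ⟨_, rfl⟩
  have hRroot : ∀ ρ ∈ R, aeval ρ u = 0 := by
    intro ρ hρ
    rw [hRdef] at hρ
    exact (mem_aroots.1 hρ).2
  have hR : ∀ τ : PadicAlgCl l ≃ₐ[ℚ_[l]] PadicAlgCl l, R.map τ = R := by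
    intro τ
    have h1 := (IsAlgClosed.splits (u.map (algebraMap ℚ_[l] (PadicAlgCl l)))).roots_map
      (τ : PadicAlgCl l →+* PadicAlgCl l)
    rw [Polynomial.map_map] at h1
    have h2 : (τ : PadicAlgCl l →+* PadicAlgCl l).comp (algebraMap ℚ_[l] (PadicAlgCl l)) =
        algebraMap ℚ_[l] (PadicAlgCl l) := by
      ext c
      exact τ.commutes c
    rw [h2] at h1
    rw [hRdef]
    exact h1.symm
  obtain ⟨y, hydef⟩ : ∃ y : PadicAlgCl l → PadicAlgCl l, ∀ ρ, y ρ = aeval ρ v := ⟨_, fun _ => rfl⟩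
  have hy : ∀ (τ : PadicAlgCl l ≃ₐ[ℚ_[l]] PadicAlgCl l) (ρ), y (τ ρ) = τ (y ρ) := by
    intro τ ρ
    rw [hydef, hydef]
    exact Polynomial.aeval_algHom_apply (τ : PadicAlgCl l →ₐ[ℚ_[l]] PadicAlgCl l) ρ v
  have hy0 : ∀ ρ ∈ R, y ρ ≠ 0 := by
    intro ρ hρ
    rw [hydef]
    exact hne ρ (hRroot ρ hρ)
  have hy2 : ∀ ρ ∈ R, y ρ ^ 2 = ∏ x ∈ rts H l, (ρ - D * x) := by
    intro ρ hρ
    rw [hydef]
    exact hval ρ (hRroot ρ hρ)
  -- the three parts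
  obtain ⟨p1, hp1⟩ : ∃ p1 : PadicAlgCl l → Prop, p1 = fun ρ => ‖(D : PadicAlgCl l)‖ < ‖ρ‖ := ⟨_, rfl⟩
  obtain ⟨p2, hp2⟩ : ∃ p2 : PadicAlgCl l → Prop,
    p2 = fun ρ => ∃ x ∈ rts H l, ‖ρ / D - x‖ < 1 := ⟨_, rfl⟩
  have hp1τ : ∀ (τ : PadicAlgCl l ≃ₐ[ℚ_[l]] PadicAlgCl l) (ρ), p1 (τ ρ) ↔ p1 ρ := by
    intro τ ρ
    rw [hp1]
    show _ < ‖τ ρ‖ ↔ _
    rw [norm_aut]
  have hp2a : ∀ (τ : PadicAlgCl l ≃ₐ[ℚ_[l]] PadicAlgCl l) (ρ), p2 ρ → p2 (τ ρ) := by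
    intro τ ρ h
    rw [hp2] at h ⊢
    obtain ⟨x, hx, h1⟩ := h
    refine ⟨τ x, hX τ x hx, ?_⟩
    have h2 : τ ρ / D - τ x = τ (ρ / D - x) := by
      rw [map_sub, map_div₀, hDτ]
    rw [h2, norm_aut]
    exact h1
  have hp2τ : ∀ (τ : PadicAlgCl l ≃ₐ[ℚ_[l]] PadicAlgCl l) (ρ), p2 (τ ρ) ↔ p2 ρ := by
    intro τ ρ
    refine ⟨fun h => ?_, hp2a τ ρ⟩
    have h1 := hp2a τ.symm _ h
    rwa [AlgEquiv.symm_apply_apply] at h1
  obtain ⟨R1, hR1⟩ : ∃ R1, R1 = R.filter p1 := ⟨_, rfl⟩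
  obtain ⟨R', hR'⟩ : ∃ R', R' = R.filter (fun ρ => ¬ p1 ρ) := ⟨_, rfl⟩
  obtain ⟨R3, hR3⟩ : ∃ R3, R3 = R'.filter p2 := ⟨_, rfl⟩
  obtain ⟨R2, hR2⟩ : ∃ R2, R2 = R'.filter (fun ρ => ¬ p2 ρ) := ⟨_, rfl⟩
  have hR1τ : ∀ τ : PadicAlgCl l ≃ₐ[ℚ_[l]] PadicAlgCl l, R1.map τ = R1 := by
    rw [hR1]
    exact filter_stab hR p1 hp1τ
  have hR'τ : ∀ τ : PadicAlgCl l ≃ₐ[ℚ_[l]] PadicAlgCl l, R'.map τ = R' := by
    rw [hR']
    exact filter_stab hR _ fun τ ρ => not_congr (hp1τ τ ρ)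
  have hR3τ : ∀ τ : PadicAlgCl l ≃ₐ[ℚ_[l]] PadicAlgCl l, R3.map τ = R3 := by
    rw [hR3]
    exact filter_stab hR'τ p2 hp2τ
  have hR2τ : ∀ τ : PadicAlgCl l ≃ₐ[ℚ_[l]] PadicAlgCl l, R2.map τ = R2 := by
    rw [hR2]
    exact filter_stab hR'τ _ fun τ ρ => not_congr (hp2τ τ ρ)
  have hsum : R = R1 + (R3 + R2) := by
    rw [hR3, hR2, Multiset.filter_add_not, hR1, hR', Multiset.filter_add_not]
  have hm1 : ∀ ρ ∈ R1, ρ ∈ R ∧ ‖(D : PadicAlgCl l)‖ < ‖ρ‖ := by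
    intro ρ hρ
    rw [hR1, Multiset.mem_filter, hp1] at hρ
    exact hρ
  have hm' : ∀ ρ ∈ R', ρ ∈ R ∧ ‖ρ‖ ≤ ‖(D : PadicAlgCl l)‖ := by
    intro ρ hρ
    rw [hR', Multiset.mem_filter, hp1] at hρ
    exact ⟨hρ.1, not_lt.1 hρ.2⟩
  have hm3 : ∀ ρ ∈ R3, ρ ∈ R ∧ ∃ x ∈ rts H l, ‖ρ / D - x‖ < 1 := by
    intro ρ hρ
    rw [hR3, Multiset.mem_filter, hp2] at hρ
    exact ⟨(hm' ρ hρ.1).1, hρ.2⟩
  have hm2 : ∀ ρ ∈ R2, ρ ∈ R ∧ ‖ρ / D‖ ≤ 1 ∧ ∀ x ∈ rts H l, ‖ρ / D - x‖ = 1 := by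
    intro ρ hρ
    rw [hR2, Multiset.mem_filter, hp2] at hρ
    obtain ⟨h1, h2⟩ := hρ
    have h3 : ‖ρ / D‖ ≤ 1 := by
      rw [norm_div]
      exact div_le_one_of_le₀ (hm' ρ h1).2 (norm_nonneg _)
    refine ⟨(hm' ρ h1).1, h3, fun x hx => ?_⟩
    refine le_antisymm ((norm_sub_le' _ _).trans (max_le h3 (norm_rts_le hx))) ?_
    by_contra h4
    exact h2 ⟨x, hx, not_le.1 h4⟩
  -- part 1
  have hA := case1 hl hX hDτ hg hR1τ hy (fun ρ hρ => hy0 ρ (hm1 ρ hρ).1)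
    (fun ρ hρ => hy2 ρ (hm1 ρ hρ).1) (fun ρ hρ x hx => by
      rw [norm_mul]
      refine lt_of_le_of_lt ?_ (hm1 ρ hρ).2
      exact mul_le_of_le_one_right (norm_nonneg _) (norm_rts_le hx))
  -- part 2
  obtain ⟨ϖ, hϖ⟩ := IsAlgClosed.exists_pow_nat_eq (D : PadicAlgCl l) (n := 2) two_pos
  have hϖ0 : ϖ ≠ 0 := by
    rintro rfl
    rw [zero_pow two_ne_zero] at hϖ
    exact hD0 hϖ.symm
  obtain ⟨κ, hκ⟩ : ∃ κ : PadicAlgCl l → PadicAlgCl l, ∀ ρ, κ ρ = y ρ / D ^ g / ϖ :=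
    ⟨_, fun _ => rfl⟩
  have hκ1 : ∀ ρ ∈ R2, ‖κ ρ‖ = 1 := by
    intro ρ hρ
    have h1 : κ ρ ^ 2 = ∏ x ∈ rts H l, (ρ / D - x) := by
      have h2 : y ρ ^ 2 = (D : PadicAlgCl l) ^ (2 * g + 1) * ∏ x ∈ rts H l, (ρ / D - x) := by
        rw [hy2 ρ (hm2 ρ hρ).1, ← hg, ← Finset.prod_const, ← Finset.prod_mul_distrib]
        refine Finset.prod_congr rfl fun z _ => ?_
        field_simp
      rw [hκ, div_pow, div_pow, h2, hϖ]
      generalize ∏ x ∈ rts H l, (ρ / D - x) = P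
      field_simp
      ring
    have h2 : ‖κ ρ‖ ^ 2 = 1 := by
      rw [← norm_pow, h1, norm_prod]
      exact Finset.prod_eq_one fun x hx => (hm2 ρ hρ).2.2 x hx
    exact (pow_eq_one_iff_of_nonneg (norm_nonneg _) two_ne_zero).1 h2
  obtain ⟨σ, hσϖ, hσ⟩ := hI l hl D hDl hDl2 ϖ hϖ
    (R2.toFinset.image (fun ρ => ρ / D) ∪ R2.toFinset.image κ) (by
      intro z hz
      rw [Finset.mem_union, Finset.mem_image, Finset.mem_image] at hz
      rcases hz with ⟨ρ, hρ, rfl⟩ | ⟨ρ, hρ, rfl⟩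
      · exact (hm2 ρ (Multiset.mem_toFinset.1 hρ)).2.1
      · exact (hκ1 ρ (Multiset.mem_toFinset.1 hρ)).le)
  have hB := case2 hl hX hDτ hD0 hR2τ (fun ρ hρ => (hm2 ρ hρ).2.2) σ (fun ρ hρ => by
      refine hσ _ (Finset.mem_union_left _ (Finset.mem_image.2 ⟨ρ, Multiset.mem_toFinset.2 hρ, rfl⟩)))
    hκ1 (fun ρ hρ => by
      have h1 := hσ _ (Finset.mem_union_right _
        (Finset.mem_image.2 ⟨ρ, Multiset.mem_toFinset.2 hρ, rfl⟩))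
      have h2 : κ (σ ρ) - -(κ ρ) = -(σ (κ ρ) - κ ρ) := by
        rw [hκ, hκ, hy, map_div₀, map_div₀, map_pow, hDτ, hσϖ]
        field_simp
        ring
      rw [h2, norm_neg]
      exact h1)
  -- part 3
  obtain ⟨e, he1, he2, hC⟩ := case3 hl (fun x hx y hy hxy => hH.2 x hx y hy hxy) hDτ hD0 hg hR3τ hy
    (fun ρ hρ => hy0 ρ (hm3 ρ hρ).1) (fun ρ hρ => hy2 ρ (hm3 ρ hρ).1) (fun ρ hρ => (hm3 ρ hρ).2)
  obtain ⟨s, hs1, hs2⟩ := (hA.mul hB).mul hC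
  refine ⟨e, s, he1, fun τ x hx => ⟨he2 τ x, hs1 τ x hx⟩, fun x hx => ⟨(hs2 x hx).1, ?_⟩⟩
  rw [← (hs2 x hx).2]
  have h1 : (-1) ^ u.natDegree * aeval ((D : PadicAlgCl l) * x) u =
      (R.map (fun ρ => ρ - D * x)).prod := by
    have hcard : R.card = u.natDegree := by
      rw [hRdef]
      have := (IsAlgClosed.splits (u.map (algebraMap ℚ_[l] (PadicAlgCl l)))).natDegree_eq_card_roots
      rw [natDegree_map] at this
      exact this.symm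
    rw [Splits.aeval_eq_prod_aroots_of_monic (IsAlgClosed.splits _) hu, ← hRdef, ← hcard,
      ← Multiset.prod_replicate, ← Multiset.map_const', ← Multiset.prod_map_mul]
    refine congrArg Multiset.prod (Multiset.map_congr rfl fun ρ _ => ?_)
    ring
  have h2 : (R.map (fun ρ => ρ - D * x)).prod = (R1.map (fun ρ => ρ - D * x)).prod *
      (R2.map (fun ρ => ρ - D * x)).prod * (R3.map (fun ρ => ρ - D * x)).prod := by
    rw [hsum, Multiset.map_add, Multiset.prod_add, Multiset.map_add, Multiset.prod_add]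
    ring
  rw [h1, h2]
  show _ = _ * _ * (_ * _ * _)
  have h3 : ∀ (a b c d f : PadicAlgCl l), a * b * c * d * f = a * b * (c * d * f) := by
    intro a b c d f
    ring
  exact h3 _ _ _ _ _

end Pool.Agent.Q150.ESG
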