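import Pool.Agent.Q14.ESG.J3e

/-!
# Project ESG (helper161), job J3, part 1: congruent units, squares of equivariant functions
-/

set_option autoImplicit false

namespace Pool.Agent.Q150.ESG

open Pool.Agent.Q14.ESG (norm_aut norm_int_le_one norm_sub_le' norm_sub_eq norm_D)

section

variable {l : ℕ} [Fact l.Prime]

/-- congruent units -/
def Cg (a b : PadicAlgCl l) : Prop := ‖a‖ = 1 ∧ ‖a - b‖ < 1

lemma Cg.right {a b : PadicAlgCl l} (h : Cg a b) : ‖b‖ = 1 := by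
  have h1 : ‖a - (a - b)‖ = ‖a‖ := norm_sub_eq (by rw [h.1]; exact h.2)
  rw [sub_sub_cancel, h.1] at h1
  exact h1

lemma Cg.refl {a : PadicAlgCl l} (h : ‖a‖ = 1) : Cg a a := ⟨h, by rw [sub_self, norm_zero]; exact one_pos⟩

lemma Cg.symm {a b : PadicAlgCl l} (h : Cg a b) : Cg b a := ⟨h.right, by rw [norm_sub_rev]; exact h.2⟩

lemma lt_trans_ {a b c : PadicAlgCl l} {r : ℝ} (h : ‖a - b‖ < r) (h' : ‖b - c‖ < r) :
    ‖a - c‖ < r := by
  have h1 := IsUltrametricDist.norm_add_le_max (a - b) (b - c)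
  rw [sub_add_sub_cancel] at h1
  exact h1.trans_lt (max_lt h h')

lemma Cg.trans {a b c : PadicAlgCl l} (h : Cg a b) (h' : Cg b c) : Cg a c :=
  ⟨h.1, lt_trans_ h.2 h'.2⟩

lemma Cg.mul {a b c d : PadicAlgCl l} (h : Cg a b) (h' : Cg c d) : Cg (a * c) (b * d) := by
  refine ⟨by rw [norm_mul, h.1, h'.1, one_mul], ?_⟩
  have h1 := IsUltrametricDist.norm_add_le_max (a * (c - d)) ((a - b) * d)
  have h2 : a * (c - d) + (a - b) * d = a * c - b * d := by ring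
  rw [h2, norm_mul, norm_mul, h.1, h'.right, one_mul, mul_one] at h1
  exact h1.trans_lt (max_lt h'.2 h.2)

lemma Cg.neg {a b : PadicAlgCl l} (h : Cg a b) : Cg (-a) (-b) := by
  refine ⟨by rw [norm_neg, h.1], ?_⟩
  have h2 : -a - -b = -(a - b) := by ring
  rw [h2, norm_neg]
  exact h.2

lemma Cg.aut {a b : PadicAlgCl l} (h : Cg a b) (τ : PadicAlgCl l ≃ₐ[ℚ_[l]] PadicAlgCl l) :
    Cg (τ a) (τ b) := by
  refine ⟨by rw [norm_aut, h.1], ?_⟩
  rw [← map_sub, norm_aut]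
  exact h.2

lemma Cg.one : Cg (1 : PadicAlgCl l) 1 := Cg.refl norm_one

lemma Cg.mprod {α : Type*} (R : Multiset α) (F G : α → PadicAlgCl l)
    (h : ∀ r ∈ R, Cg (F r) (G r)) : Cg (R.map F).prod (R.map G).prod := by
  induction R using Multiset.induction with
  | empty => simpa using Cg.one
  | cons a R ih =>
    rw [Multiset.map_cons, Multiset.map_cons, Multiset.prod_cons, Multiset.prod_cons]
    exact (h a (Multiset.mem_cons_self a R)).mul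
      (ih fun r hr => h r (Multiset.mem_cons_of_mem hr))

lemma Cg.fprod {α : Type*} (R : Finset α) (F G : α → PadicAlgCl l)
    (h : ∀ r ∈ R, Cg (F r) (G r)) : Cg (∏ r ∈ R, F r) (∏ r ∈ R, G r) :=
  Cg.mprod R.val F G h

lemma Cg.rel {α : Type*} {r : α → α → Prop} {A B : Multiset α} (h : Multiset.Rel r A B)
    (F : α → PadicAlgCl l) (hF : ∀ a ∈ A, ∀ b, r a b → Cg (F a) (F b)) :
    Cg (A.map F).prod (B.map F).prod := by
  induction h with
  | zero => simpa using Cg.one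
  | @cons a b as bs hab hrel ih =>
    rw [Multiset.map_cons, Multiset.map_cons, Multiset.prod_cons, Multiset.prod_cons]
    exact (hF a (Multiset.mem_cons_self a as) b hab).mul
      (ih fun c hc => hF c (Multiset.mem_cons_of_mem hc))

lemma norm_two (hl : l ≠ 2) : ‖(2 : PadicAlgCl l)‖ = 1 := by
  have h1 : ¬ (l : ℤ) ∣ 2 := by
    intro h
    have h2 : l ∣ 2 := by exact_mod_cast h
    exact hl ((Nat.prime_dvd_prime_iff_eq (Fact.out : l.Prime) Nat.prime_two).1 h2)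
  have h3 := norm_D h1
  exact_mod_cast h3

lemma exists_sqrt {a c : PadicAlgCl l} (h : Cg c (a ^ 2)) : ∃ r, r ^ 2 = c ∧ Cg r a := by
  have ha : ‖a‖ = 1 := by
    have h1 := h.right
    rw [norm_pow] at h1
    exact (pow_eq_one_iff_of_nonneg (norm_nonneg a) two_ne_zero).1 h1
  obtain ⟨r, hr⟩ := IsAlgClosed.exists_pow_nat_eq c (n := 2) two_pos
  have hr1 : ‖r‖ = 1 := by
    have h1 := h.1
    rw [← hr, norm_pow] at h1
    exact (pow_eq_one_iff_of_nonneg (norm_nonneg r) two_ne_zero).1 h1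
  have h2 : ‖r - a‖ * ‖r + a‖ < 1 := by
    rw [← norm_mul]
    have h3 : (r - a) * (r + a) = c - a ^ 2 := by rw [← hr]; ring
    rw [h3]
    exact h.2
  by_cases h3 : ‖r - a‖ < 1
  · exact ⟨r, hr, hr1, h3⟩
  · refine ⟨-r, by rw [neg_sq, hr], by rw [norm_neg, hr1], ?_⟩
    have h4 : -r - a = -(r + a) := by ring
    rw [h4, norm_neg]
    by_contra h5
    have h6 := mul_le_mul (not_lt.1 h3) (not_lt.1 h5) zero_le_one (norm_nonneg _)
    rw [one_mul] at h6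
    exact absurd h2 (not_lt.2 h6)

lemma unique_sqrt (hl : l ≠ 2) {a r r' : PadicAlgCl l} (h1 : Cg r a) (h2 : Cg r' a)
    (h : r ^ 2 = r' ^ 2) : r = r' := by
  rcases sq_eq_sq_iff_eq_or_eq_neg.1 h with h3 | h3
  · exact h3
  · exfalso
    have h4 := (h1.trans h2.symm).2
    have h5 : r - r' = 2 * r := by rw [h3]; ring
    rw [h5, norm_mul, norm_two hl, h1.1, one_mul] at h4
    exact lt_irrefl _ h4

/-- squares of equivariant functions -/
def Sqf (X : Finset (PadicAlgCl l)) (c : PadicAlgCl l → PadicAlgCl l) : Prop :=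
  ∃ s : PadicAlgCl l → PadicAlgCl l,
    (∀ (τ : PadicAlgCl l ≃ₐ[ℚ_[l]] PadicAlgCl l), ∀ x ∈ X, s (τ x) = τ (s x)) ∧
    ∀ x ∈ X, s x ≠ 0 ∧ c x = s x ^ 2

variable {X : Finset (PadicAlgCl l)}

lemma Sqf.mul {c c' : PadicAlgCl l → PadicAlgCl l} (h : Sqf X c) (h' : Sqf X c') :
    Sqf X (fun x => c x * c' x) := by
  obtain ⟨s, h1, h2⟩ := h
  obtain ⟨s', h1', h2'⟩ := h'
  refine ⟨fun x => s x * s' x, fun τ x hx => ?_, fun x hx => ⟨mul_ne_zero (h2 x hx).1 (h2' x hx).1, ?_⟩⟩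
  · simp only [h1 τ x hx, h1' τ x hx, map_mul]
  · simp only [(h2 x hx).2, (h2' x hx).2, mul_pow]

lemma Sqf.congr {c c' : PadicAlgCl l → PadicAlgCl l} (h : Sqf X c) (h' : ∀ x ∈ X, c' x = c x) :
    Sqf X c' := by
  obtain ⟨s, h1, h2⟩ := h
  exact ⟨s, h1, fun x hx => ⟨(h2 x hx).1, by rw [h' x hx, (h2 x hx).2]⟩⟩

lemma Sqf.of_sq {s : PadicAlgCl l → PadicAlgCl l}
    (h : ∀ (τ : PadicAlgCl l ≃ₐ[ℚ_[l]] PadicAlgCl l), ∀ x ∈ X, s (τ x) = τ (s x))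
    (h0 : ∀ x ∈ X, s x ≠ 0) : Sqf X (fun x => s x ^ 2) := ⟨s, h, fun x hx => ⟨h0 x hx, rfl⟩⟩

/-- Hensel -/
theorem Sqf.of_cg (hl : l ≠ 2)
    (hX : ∀ (τ : PadicAlgCl l ≃ₐ[ℚ_[l]] PadicAlgCl l), ∀ x ∈ X, τ x ∈ X)
    {c a : PadicAlgCl l → PadicAlgCl l}
    (hc : ∀ (τ : PadicAlgCl l ≃ₐ[ℚ_[l]] PadicAlgCl l), ∀ x ∈ X, c (τ x) = τ (c x))
    (h : ∀ x ∈ X, Cg (c x) (a x ^ 2))
    (ha : ∀ (τ : PadicAlgCl l ≃ₐ[ℚ_[l]] PadicAlgCl l), ∀ x ∈ X, Cg (a (τ x)) (τ (a x))) :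
    Sqf X c := by
  have h1 : ∀ x : PadicAlgCl l, ∃ r, x ∈ X → r ^ 2 = c x ∧ Cg r (a x) := by
    intro x
    by_cases hx : x ∈ X
    · obtain ⟨r, hr⟩ := exists_sqrt (h x hx)
      exact ⟨r, fun _ => hr⟩
    · exact ⟨0, fun h => absurd h hx⟩
  choose r hr using h1
  refine ⟨r, fun τ x hx => ?_, fun x hx => ⟨?_, (hr x hx).1.symm⟩⟩
  · obtain ⟨h2, h3⟩ := hr x hx
    obtain ⟨h4, h5⟩ := hr (τ x) (hX τ x hx)
    refine unique_sqrt hl h5 ((h3.aut τ).trans (ha τ x hx).symm) ?_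
    rw [h4, hc τ x hx, ← map_pow, h2]
  · intro h0
    have h2 := (hr x hx).2.1
    rw [h0, norm_zero] at h2
    exact zero_ne_one h2

lemma prod_eqv {R : Multiset (PadicAlgCl l)}
    (hR : ∀ τ : PadicAlgCl l ≃ₐ[ℚ_[l]] PadicAlgCl l, R.map τ = R)
    {F : PadicAlgCl l → PadicAlgCl l → PadicAlgCl l}
    (hF : ∀ (τ : PadicAlgCl l ≃ₐ[ℚ_[l]] PadicAlgCl l), ∀ ρ ∈ R, ∀ x ∈ X,
      F (τ ρ) (τ x) = τ (F ρ x)) (τ : PadicAlgCl l ≃ₐ[ℚ_[l]] PadicAlgCl l)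
    {x : PadicAlgCl l} (hx : x ∈ X) :
    (R.map (fun ρ => F ρ (τ x))).prod = τ (R.map (fun ρ => F ρ x)).prod := by
  calc (R.map (fun ρ => F ρ (τ x))).prod = ((R.map τ).map (fun ρ => F ρ (τ x))).prod := by rw [hR]
    _ = (R.map (fun ρ => F (τ ρ) (τ x))).prod := by rw [Multiset.map_map]; rfl
    _ = (R.map (fun ρ => τ (F ρ x))).prod := by
      rw [Multiset.map_congr rfl fun ρ hρ => hF τ ρ hρ x hx]
    _ = τ (R.map (fun ρ => F ρ x)).prod := by rw [map_multiset_prod, Multiset.map_map]; rfl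

lemma filter_stab {R : Multiset (PadicAlgCl l)}
    (hR : ∀ τ : PadicAlgCl l ≃ₐ[ℚ_[l]] PadicAlgCl l, R.map τ = R) (p : PadicAlgCl l → Prop)
    [DecidablePred p] (hp : ∀ (τ : PadicAlgCl l ≃ₐ[ℚ_[l]] PadicAlgCl l) (ρ), p (τ ρ) ↔ p ρ)
    (τ : PadicAlgCl l ≃ₐ[ℚ_[l]] PadicAlgCl l) : (R.filter p).map τ = R.filter p := by
  conv_rhs => rw [← hR τ, Multiset.filter_map]
  congr 1
  refine Multiset.filter_congr fun ρ _ => ?_
  exact (hp τ ρ).symm

lemma prodX (hX : ∀ (τ : PadicAlgCl l ≃ₐ[ℚ_[l]] PadicAlgCl l), ∀ x ∈ X, τ x ∈ X)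
    (τ : PadicAlgCl l ≃ₐ[ℚ_[l]] PadicAlgCl l) {M : Type*} [CommMonoid M]
    (φ : PadicAlgCl l → M) : ∏ y ∈ X, φ (τ y) = ∏ y ∈ X, φ y := by
  classical
  have h1 : X.image τ = X := by
    apply Finset.eq_of_subset_of_card_le
    · intro z hz
      obtain ⟨x, hx, rfl⟩ := Finset.mem_image.1 hz
      exact hX τ x hx
    · rw [Finset.card_image_of_injective X τ.injective]
  conv_rhs => rw [← h1, Finset.prod_image (fun a _ b _ h => τ.injective h)]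

lemma nsmul_two_inj {α : Type*} {A B : Multiset α} (h : A + A = B + B) : A = B := by
  classical
  ext a
  have h1 := congrArg (Multiset.count a) h
  rw [Multiset.count_add, Multiset.count_add] at h1
  omega

end

end Pool.Agent.Q150.ESG
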