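import Pool.Agent.Q150.ESG.J3A

/-!
# Project ESG (helper161), job J3, part 2: the large zeros, and the zeros away from the zeros of `h`
-/

set_option autoImplicit false

namespace Pool.Agent.Q150.ESG

open Pool.Agent.Q14.ESG (norm_aut norm_int_le_one norm_sub_le' norm_sub_eq norm_D)

section

variable {l : ℕ} [Fact l.Prime] {X : Finset (PadicAlgCl l)}

/-- the large zeros -/
theorem case1 (hl : l ≠ 2)
    (hX : ∀ (τ : PadicAlgCl l ≃ₐ[ℚ_[l]] PadicAlgCl l), ∀ x ∈ X, τ x ∈ X)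
    {D : PadicAlgCl l} (hD : ∀ τ : PadicAlgCl l ≃ₐ[ℚ_[l]] PadicAlgCl l, τ D = D)
    {g : ℕ} (hg : X.card = 2 * g + 1) {R : Multiset (PadicAlgCl l)}
    (hR : ∀ τ : PadicAlgCl l ≃ₐ[ℚ_[l]] PadicAlgCl l, R.map τ = R)
    {y : PadicAlgCl l → PadicAlgCl l}
    (hy : ∀ (τ : PadicAlgCl l ≃ₐ[ℚ_[l]] PadicAlgCl l) (ρ), y (τ ρ) = τ (y ρ))
    (hy0 : ∀ ρ ∈ R, y ρ ≠ 0) (hy2 : ∀ ρ ∈ R, y ρ ^ 2 = ∏ x ∈ X, (ρ - D * x))
    (hn : ∀ ρ ∈ R, ∀ x ∈ X, ‖D * x‖ < ‖ρ‖) :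
    Sqf X (fun x => (R.map (fun ρ => ρ - D * x)).prod) := by
  have hXne : X.Nonempty := by
    rw [← Finset.card_pos, hg]
    omega
  obtain ⟨x0, hx0⟩ := hXne
  have hρ0 : ∀ ρ ∈ R, ρ ≠ 0 := by
    intro ρ hρ h
    have h1 := hn ρ hρ x0 hx0
    rw [h, norm_zero] at h1
    exact absurd h1 (not_lt.2 (norm_nonneg _))
  have hcg : ∀ ρ ∈ R, ∀ x ∈ X, Cg (1 - D * x / ρ) 1 := by
    intro ρ hρ x hx
    have h1 : ‖D * x / ρ‖ < 1 := by
      rw [norm_div, div_lt_one (norm_pos_iff.2 (hρ0 ρ hρ))]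
      exact hn ρ hρ x hx
    refine ⟨?_, ?_⟩
    · rw [norm_sub_eq (by rw [norm_one]; exact h1), norm_one]
    · have h2 : 1 - D * x / ρ - 1 = -(D * x / ρ) := by ring
      rw [h2, norm_neg]
      exact h1
  have h1 : Sqf X (fun x => ((R.map (fun ρ => ρ ^ (g + 1) / y ρ)).prod) ^ 2) := by
    refine Sqf.of_sq (s := fun _ => (R.map (fun ρ => ρ ^ (g + 1) / y ρ)).prod) ?_ ?_
    · intro τ x hx
      exact prod_eqv (X := X) hR (F := fun ρ _ => ρ ^ (g + 1) / y ρ) (fun τ ρ hρ x hx => by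
        show (τ ρ) ^ (g + 1) / y (τ ρ) = τ (ρ ^ (g + 1) / y ρ)
        rw [hy, map_div₀, map_pow]) τ hx
    · intro x hx
      refine Multiset.prod_ne_zero ?_
      intro h0
      rw [Multiset.mem_map] at h0
      obtain ⟨ρ, hρ, h2⟩ := h0
      exact div_ne_zero (pow_ne_zero _ (hρ0 ρ hρ)) (hy0 ρ hρ) h2
  have h2 : Sqf X (fun x => (R.map (fun ρ => (∏ y ∈ X, (1 - D * y / ρ)) * (1 - D * x / ρ))).prod) := by
    refine Sqf.of_cg hl hX (a := fun _ => 1) ?_ ?_ ?_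
    · intro τ x hx
      exact prod_eqv (X := X) hR
        (F := fun ρ x => (∏ y ∈ X, (1 - D * y / ρ)) * (1 - D * x / ρ)) (fun τ ρ hρ x hx => by
        show (∏ y ∈ X, (1 - D * y / τ ρ)) * (1 - D * τ x / τ ρ) =
          τ ((∏ y ∈ X, (1 - D * y / ρ)) * (1 - D * x / ρ))
        rw [map_mul, map_prod, ← prodX hX τ (fun y => (1 - D * y / τ ρ))]
        simp only [map_sub, map_one, map_div₀, map_mul, hD]) τ hx
    · intro x hx
      have h3 : Cg (R.map (fun ρ => (∏ y ∈ X, (1 - D * y / ρ)) * (1 - D * x / ρ))).prod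
          (R.map (fun _ => (1 : PadicAlgCl l))).prod := by
        refine Cg.mprod R _ _ fun ρ hρ => ?_
        have h4 : Cg (∏ y ∈ X, (1 - D * y / ρ)) (∏ y ∈ X, (1 : PadicAlgCl l)) :=
          Cg.fprod X _ _ fun y hy' => hcg ρ hρ y hy'
        rw [Finset.prod_const_one] at h4
        have h5 := h4.mul (hcg ρ hρ x hx)
        rw [mul_one] at h5
        exact h5
      simpa using h3
    · intro τ x hx
      rw [map_one]
      exact Cg.one
  refine (h1.mul h2).congr fun x hx => ?_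
  rw [← Multiset.prod_map_pow, ← Multiset.prod_map_mul]
  refine congrArg Multiset.prod (Multiset.map_congr rfl fun ρ hρ => ?_)
  have hρ := hρ
  have e1 : y ρ ^ 2 = ρ ^ (2 * g + 1) * ∏ y ∈ X, (1 - D * y / ρ) := by
    rw [hy2 ρ hρ, ← hg, ← Finset.prod_const, ← Finset.prod_mul_distrib]
    refine Finset.prod_congr rfl fun z _ => ?_
    have := hρ0 ρ hρ
    field_simp
  have e2 : (∏ y ∈ X, (1 - D * y / ρ)) = y ρ ^ 2 / ρ ^ (2 * g + 1) := by
    rw [e1, mul_div_cancel_left₀]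
    exact pow_ne_zero _ (hρ0 ρ hρ)
  rw [e2]
  have h6 := hρ0 ρ hρ
  have h7 := hy0 ρ hρ
  generalize y ρ = w at *
  field_simp
  ring

/-- congruence modulo the maximal ideal -/
def stM (l : ℕ) [Fact l.Prime] : Setoid (PadicAlgCl l) where
  r a b := ‖a - b‖ < 1
  iseqv := ⟨fun a => by simp, fun {a b} h => by rw [norm_sub_rev]; exact h,
    fun {a b c} h h' => lt_trans_ h h'⟩

/-- one half of the zeros away from the zeros of `h` -/
theorem half_exists (hl : l ≠ 2) {R : Multiset (PadicAlgCl l)}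
    (hR : ∀ τ : PadicAlgCl l ≃ₐ[ℚ_[l]] PadicAlgCl l, R.map τ = R)
    (σ : PadicAlgCl l ≃ₐ[ℚ_[l]] PadicAlgCl l) {κ : PadicAlgCl l → PadicAlgCl l}
    (hκ1 : ∀ ρ ∈ R, ‖κ ρ‖ = 1) (hκ : ∀ ρ ∈ R, ‖κ (σ ρ) - -(κ ρ)‖ < 1) :
    ∃ A : Multiset (PadicAlgCl l), (∀ ρ ∈ A, ρ ∈ R) ∧ R = A + A.map σ := by
  classical
  obtain ⟨q1, hq1⟩ : ∃ q1 : PadicAlgCl l → Quotient (stM l), ∀ ρ, q1 ρ = Quotient.mk (stM l) (κ ρ) :=
    ⟨_, fun _ => rfl⟩
  obtain ⟨q2, hq2⟩ : ∃ q2 : PadicAlgCl l → Quotient (stM l), ∀ ρ, q2 ρ = Quotient.mk (stM l) (-(κ ρ)) :=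
    ⟨_, fun _ => rfl⟩
  have e1 : ∀ ρ ∈ R, q1 (σ ρ) = q2 ρ := by
    intro ρ hρ
    rw [hq1, hq2]
    exact Quotient.sound (hκ ρ hρ)
  have e2 : ∀ ρ ∈ R, q2 (σ ρ) = q1 ρ := by
    intro ρ hρ
    rw [hq1, hq2]
    apply Quotient.sound
    show ‖-(κ (σ ρ)) - κ ρ‖ < 1
    have h1 : -(κ (σ ρ)) - κ ρ = -(κ (σ ρ) - -(κ ρ)) := by ring
    rw [h1, norm_neg]
    exact hκ ρ hρ
  have e3 : ∀ ρ ∈ R, q1 ρ ≠ q2 ρ := by
    intro ρ hρ h
    rw [hq1, hq2] at h
    have h1 : ‖κ ρ - -(κ ρ)‖ < 1 := Quotient.exact h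
    have h2 : κ ρ - -(κ ρ) = 2 * κ ρ := by ring
    rw [h2, norm_mul, norm_two hl, hκ1 ρ hρ, one_mul] at h1
    exact lt_irrefl _ h1
  refine ⟨R.filter (fun ρ => WellOrderingRel (q1 ρ) (q2 ρ)), fun ρ h => (Multiset.mem_filter.1 h).1, ?_⟩
  have h1 : R.filter (fun ρ => ¬ WellOrderingRel (q1 ρ) (q2 ρ)) =
      (R.filter (fun ρ => WellOrderingRel (q1 ρ) (q2 ρ))).map σ := by
    conv_lhs => rw [← hR σ, Multiset.filter_map]
    congr 1
    refine Multiset.filter_congr fun ρ hρ => ?_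
    show ¬ WellOrderingRel (q1 (σ ρ)) (q2 (σ ρ)) ↔ WellOrderingRel (q1 ρ) (q2 ρ)
    rw [e1 ρ hρ, e2 ρ hρ]
    constructor
    · intro h
      rcases trichotomous_of WellOrderingRel (q1 ρ) (q2 ρ) with h2 | h2 | h2
      · exact h2
      · exact absurd h2 (e3 ρ hρ)
      · exact absurd h2 h
    · intro h h'
      exact asymm_of WellOrderingRel h h'
  rw [← h1, Multiset.filter_add_not]

/-- the zeros away from the zeros of `h` -/
theorem case2 (hl : l ≠ 2)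
    (hX : ∀ (τ : PadicAlgCl l ≃ₐ[ℚ_[l]] PadicAlgCl l), ∀ x ∈ X, τ x ∈ X)
    {D : PadicAlgCl l} (hD : ∀ τ : PadicAlgCl l ≃ₐ[ℚ_[l]] PadicAlgCl l, τ D = D) (hD0 : D ≠ 0)
    {R : Multiset (PadicAlgCl l)}
    (hR : ∀ τ : PadicAlgCl l ≃ₐ[ℚ_[l]] PadicAlgCl l, R.map τ = R)
    (hn : ∀ ρ ∈ R, ∀ x ∈ X, ‖ρ / D - x‖ = 1)
    (σ : PadicAlgCl l ≃ₐ[ℚ_[l]] PadicAlgCl l) (hσ : ∀ ρ ∈ R, ‖σ (ρ / D) - ρ / D‖ < 1)
    {κ : PadicAlgCl l → PadicAlgCl l}
    (hκ1 : ∀ ρ ∈ R, ‖κ ρ‖ = 1) (hκ : ∀ ρ ∈ R, ‖κ (σ ρ) - -(κ ρ)‖ < 1) :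
    Sqf X (fun x => (R.map (fun ρ => ρ - D * x)).prod) := by
  obtain ⟨A, hAR, hRA⟩ := half_exists hl hR σ hκ1 hκ
  have hσd : ∀ (τ : PadicAlgCl l ≃ₐ[ℚ_[l]] PadicAlgCl l) (ρ), τ ρ / D = τ (ρ / D) := by
    intro τ ρ
    rw [map_div₀, hD]
  -- the powers of `D`
  have h1 : Sqf X (fun x => (D ^ A.card) ^ 2) := by
    refine Sqf.of_sq (s := fun _ => D ^ A.card) ?_ ?_
    · intro τ x hx
      rw [map_pow, hD]
    · intro x hx
      exact pow_ne_zero _ hD0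
  have h2 : Sqf X (fun x => (R.map (fun ρ => ρ / D - x)).prod) := by
    refine Sqf.of_cg hl hX (a := fun x => (A.map (fun ρ => ρ / D - x)).prod) ?_ ?_ ?_
    · intro τ x hx
      exact prod_eqv (X := X) hR (F := fun ρ x => ρ / D - x) (fun τ ρ hρ x hx => by
        show τ ρ / D - τ x = τ (ρ / D - x)
        rw [hσd, map_sub]) τ hx
    · intro x hx
      have h3 : (R.map (fun ρ => ρ / D - x)).prod =
          (A.map (fun ρ => ρ / D - x)).prod * (A.map (fun ρ => σ ρ / D - x)).prod := by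
        conv_lhs => rw [hRA]
        rw [Multiset.map_add, Multiset.prod_add, Multiset.map_map]
        rfl
      rw [h3, pow_two]
      refine Cg.mul ?_ ?_
      · exact Cg.mprod A _ _ fun ρ hρ => Cg.refl (hn ρ (hAR ρ hρ) x hx)
      · refine Cg.mprod A _ _ fun ρ hρ => Cg.symm ⟨hn ρ (hAR ρ hρ) x hx, ?_⟩
        have h4 : ρ / D - x - (σ ρ / D - x) = -(σ (ρ / D) - ρ / D) := by
          rw [hσd]; ring
        rw [h4, norm_neg]
        exact hσ ρ (hAR ρ hρ)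
    · intro τ x hx
      have h3 : τ ((A.map (fun ρ => ρ / D - x)).prod) =
          ((A.map τ).map (fun ρ => ρ / D - τ x)).prod := by
        rw [map_multiset_prod, Multiset.map_map, Multiset.map_map]
        refine congrArg Multiset.prod (Multiset.map_congr rfl fun ρ _ => ?_)
        show τ (ρ / D - x) = τ ρ / D - τ x
        rw [hσd, map_sub]
      show Cg (A.map (fun ρ => ρ / D - τ x)).prod (τ ((A.map (fun ρ => ρ / D - x)).prod))
      rw [h3]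
      -- the residues
      obtain ⟨mk, hmk⟩ : ∃ mk : PadicAlgCl l → Quotient (stM l), ∀ ρ, mk ρ =
        Quotient.mk (stM l) (ρ / D) := ⟨_, fun _ => rfl⟩
      have h5 : ∀ B : Multiset (PadicAlgCl l), (∀ ρ ∈ B, ρ ∈ R) →
          ∀ τ' : PadicAlgCl l ≃ₐ[ℚ_[l]] PadicAlgCl l,
          ((B.map σ).map τ').map mk = (B.map τ').map mk := by
        intro B hB τ'
        rw [Multiset.map_map, Multiset.map_map, Multiset.map_map]
        refine Multiset.map_congr rfl fun ρ hρ => ?_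
        show mk (τ' (σ ρ)) = mk (τ' ρ)
        rw [hmk, hmk]
        apply Quotient.sound
        show ‖τ' (σ ρ) / D - τ' ρ / D‖ < 1
        rw [hσd, hσd, hσd, ← map_sub, norm_aut]
        exact hσ ρ (hB ρ hρ)
      have h6 : R.map mk = A.map mk + A.map mk := by
        conv_lhs => rw [hRA]
        rw [Multiset.map_add]
        congr 1
        have := h5 A hAR AlgEquiv.refl
        have h7 : ∀ B : Multiset (PadicAlgCl l),
            B.map (AlgEquiv.refl : PadicAlgCl l ≃ₐ[ℚ_[l]] PadicAlgCl l) = B := fun B => by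
          simp
        rwa [h7, h7] at this
      have h7 : (R.map τ).map mk = (A.map τ).map mk + (A.map τ).map mk := by
        conv_lhs => rw [hRA]
        rw [Multiset.map_add, Multiset.map_add, h5 A hAR τ]
      rw [hR, h6] at h7
      have h8 : A.map mk = (A.map τ).map mk := nsmul_two_inj h7
      have h9 : Multiset.Rel (fun a b => mk a = mk b) A (A.map τ) := by
        rw [← Multiset.rel_map (p := (· = ·)), Multiset.rel_eq]
        exact h8
      refine Cg.rel h9 _ fun a ha b hab => ⟨hn a (hAR a ha) _ (hX τ x hx), ?_⟩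
      rw [hmk, hmk] at hab
      have h10 : ‖a / D - b / D‖ < 1 := Quotient.exact hab
      have h11 : a / D - τ x - (b / D - τ x) = a / D - b / D := by ring
      rw [h11]
      exact h10
  refine (h1.mul h2).congr fun x hx => ?_
  have h3 : (R.map (fun ρ => ρ - D * x)).prod = (R.map (fun ρ => D * (ρ / D - x))).prod := by
    refine congrArg Multiset.prod (Multiset.map_congr rfl fun ρ _ => ?_)
    field_simp
  have h4 : R.card = A.card * 2 := by
    conv_lhs => rw [hRA]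
    rw [Multiset.card_add, Multiset.card_map, mul_two]
  rw [h3, Multiset.prod_map_mul, Multiset.map_const', Multiset.prod_replicate, h4, pow_mul]

end

end Pool.Agent.Q150.ESG
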