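import Pool.Agent.Q150.ESG.J3B

/-!
# Project ESG (helper161), job J3, part 3: the zeros close to the zeros of `h`
-/

set_option autoImplicit false

namespace Pool.Agent.Q150.ESG

open Pool.Agent.Q14.ESG (norm_aut norm_int_le_one norm_sub_le' norm_sub_eq norm_D)
open Pool.Agent.Q161.ESG

section

variable {l : ℕ} [Fact l.Prime] {X : Finset (PadicAlgCl l)}

lemma zmod2 (z : ZMod 2) : z = 0 ∨ z = 1 := by
  revert z
  decide

open Classical in
/-- `ρ` is close to `x` -/
noncomputable def dl (D ρ x : PadicAlgCl l) : ℕ := if ‖ρ / D - x‖ < 1 then 1 else 0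

/-- the number of the zeros close to `x` -/
noncomputable def Nn (D : PadicAlgCl l) (R : Multiset (PadicAlgCl l)) (x : PadicAlgCl l) : ℕ :=
  (R.map (fun ρ => dl D ρ x)).sum

lemma dl_aut {D : PadicAlgCl l} (hD : ∀ τ : PadicAlgCl l ≃ₐ[ℚ_[l]] PadicAlgCl l, τ D = D)
    (τ : PadicAlgCl l ≃ₐ[ℚ_[l]] PadicAlgCl l) (ρ x : PadicAlgCl l) :
    dl D (τ ρ) (τ x) = dl D ρ x := by
  unfold dl
  have h1 : τ ρ / D - τ x = τ (ρ / D - x) := by
    rw [map_sub, map_div₀, hD]
  rw [h1, norm_aut]

lemma Nn_aut {D : PadicAlgCl l} (hD : ∀ τ : PadicAlgCl l ≃ₐ[ℚ_[l]] PadicAlgCl l, τ D = D)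
    {R : Multiset (PadicAlgCl l)}
    (hR : ∀ τ : PadicAlgCl l ≃ₐ[ℚ_[l]] PadicAlgCl l, R.map τ = R)
    (τ : PadicAlgCl l ≃ₐ[ℚ_[l]] PadicAlgCl l) (x : PadicAlgCl l) : Nn D R (τ x) = Nn D R x := by
  unfold Nn
  conv_lhs => rw [← hR τ]
  rw [Multiset.map_map]
  refine congrArg Multiset.sum (Multiset.map_congr rfl fun ρ _ => ?_)
  exact dl_aut hD τ ρ x

lemma sum_dl {D : PadicAlgCl l} (hXd : ∀ x ∈ X, ∀ y ∈ X, x ≠ y → ‖x - y‖ = 1)
    {ρ : PadicAlgCl l} (h : ∃ x ∈ X, ‖ρ / D - x‖ < 1) : ∑ x ∈ X, dl D ρ x = 1 := by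
  obtain ⟨x, hx, hx1⟩ := h
  rw [Finset.sum_eq_single_of_mem x hx]
  · unfold dl
    rw [if_pos hx1]
  · intro y hy hyx
    unfold dl
    rw [if_neg]
    intro h
    have h1 := hXd y hy x hx hyx
    have h2 : ‖y - x‖ < 1 := by
      refine lt_trans_ (b := ρ / D) ?_ hx1
      rw [norm_sub_rev]
      exact h
    rw [h1] at h2
    exact lt_irrefl _ h2

lemma sum_Nn {D : PadicAlgCl l} (hXd : ∀ x ∈ X, ∀ y ∈ X, x ≠ y → ‖x - y‖ = 1)
    (R : Multiset (PadicAlgCl l)) (h : ∀ ρ ∈ R, ∃ x ∈ X, ‖ρ / D - x‖ < 1) :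
    ∑ x ∈ X, Nn D R x = R.card := by
  unfold Nn
  induction R using Multiset.induction with
  | empty => simp
  | cons ρ R ih =>
    simp only [Multiset.map_cons, Multiset.sum_cons, Finset.sum_add_distrib, Multiset.card_cons]
    rw [ih fun ρ' h' => h ρ' (Multiset.mem_cons_of_mem h'), sum_dl hXd (h ρ (Multiset.mem_cons_self _ _)),
      add_comm]

lemma Nn_le (D : PadicAlgCl l) (R : Multiset (PadicAlgCl l)) (x : PadicAlgCl l) :
    (R.map (fun ρ => 1 - dl D ρ x)).sum + Nn D R x = R.card := by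
  unfold Nn
  induction R using Multiset.induction with
  | empty => simp
  | cons ρ R ih =>
    simp only [Multiset.map_cons, Multiset.sum_cons, Multiset.card_cons]
    have h1 : dl D ρ x ≤ 1 := by
      unfold dl
      split_ifs <;> simp
    omega

open Classical in
/-- the exponents of the auxiliary factor -/
noncomputable def ep (e : PadicAlgCl l → ZMod 2) (x y : PadicAlgCl l) : ℕ := if e y = e x then 0 else 1

lemma ep_even {e : PadicAlgCl l → ZMod 2} {N : PadicAlgCl l → ℕ} {n : ℕ}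
    (he : ∀ x, e x = ((N x + n : ℕ) : ZMod 2)) (x y : PadicAlgCl l) : Even (N x + N y + ep e x y) := by
  rw [← ZMod.natCast_eq_zero_iff_even]
  have h2 : (2 : ZMod 2) = 0 := rfl
  have h1 : ((ep e x y : ℕ) : ZMod 2) = e x + e y := by
    unfold ep
    rcases zmod2 (e x) with h | h <;> rcases zmod2 (e y) with h' | h' <;> rw [h, h'] <;> simp <;> decide
  push_cast
  rw [h1, he x, he y]
  push_cast
  linear_combination (N x + N y + n : ZMod 2) * h2

lemma D_even {e : PadicAlgCl l → ZMod 2} {N M : PadicAlgCl l → ℕ} {n : ℕ}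
    (he : ∀ x, e x = ((N x + n : ℕ) : ZMod 2)) {x : PadicAlgCl l} (h : M x + N x = n) :
    Even (M x + (if e x = 1 then 1 else 0)) := by
  rw [← ZMod.natCast_eq_zero_iff_even]
  have h2 : (2 : ZMod 2) = 0 := rfl
  have h1 : (((if e x = 1 then 1 else 0 : ℕ)) : ZMod 2) = e x := by
    rcases zmod2 (e x) with h | h <;> rw [h] <;> simp
  push_cast at h1 ⊢
  rw [h1, he x, ← h]
  push_cast
  linear_combination (M x + N x : ZMod 2) * h2

open Classical in
/-- the auxiliary factor -/
lemma uO_eq {H : HP} (hodd : Odd (rts H l).card) {e : PadicAlgCl l → ZMod 2}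
    (hs : ∑ x ∈ rts H l, e x = 0) {x : PadicAlgCl l} (hx : x ∈ rts H l) :
    uO H e x = ∏ y ∈ (rts H l).erase x, (y - x) ^ ep e x y := by
  have hp : ∀ A : Finset (PadicAlgCl l), ∏ y ∈ A, (x - y) = (-1) ^ A.card * ∏ y ∈ A, (y - x) := by
    intro A
    rw [← Finset.prod_const, ← Finset.prod_mul_distrib]
    refine Finset.prod_congr rfl fun y _ => ?_
    ring
  have hc1 : Even ((rts H l).filter (fun y => e y = 1)).card := by
    rw [← ZMod.natCast_eq_zero_iff_even, Finset.card_filter]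
    rw [← hs]
    push_cast
    refine Finset.sum_congr rfl fun y _ => ?_
    rcases zmod2 (e y) with h | h <;> rw [h] <;> simp
  have hc2 : Odd ((rts H l).filter (fun y => e y = 0)).card := by
    have h1 : (rts H l).card = ((rts H l).filter (fun y => e y = 1)).card +
        ((rts H l).filter (fun y => e y = 0)).card := by
      rw [← Finset.card_filter_add_card_filter_not (fun y => e y = 1)]
      congr 2
      refine Finset.filter_congr fun y _ => ?_
      rcases zmod2 (e y) with h | h <;> rw [h] <;> simp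
    rw [h1] at hodd
    exact (Nat.odd_add'.1 hodd).2 hc1
  have hr : ∏ y ∈ (rts H l).erase x, (y - x) ^ ep e x y =
      ∏ y ∈ (rts H l).filter (fun y => ¬ e y = e x), (y - x) := by
    rw [Finset.prod_filter]
    have h1 : ∀ y, (y - x) ^ ep e x y = if ¬ e y = e x then (y - x) else 1 := by
      intro y
      unfold ep
      split_ifs <;> simp_all
    rw [Finset.prod_congr rfl fun y _ => h1 y]
    refine Finset.prod_subset (Finset.erase_subset _ _) fun y hy hy' => ?_
    have : y = x := by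
      by_contra h
      exact hy' (Finset.mem_erase.2 ⟨h, hy⟩)
    rw [this]
    simp
  rw [hr]
  unfold uO
  rcases zmod2 (e x) with h | h
  · rw [if_pos h, h]
    have h2 : (rts H l).filter (fun y => ¬ e y = 0) = (rts H l).filter (fun y => e y = 1) := by
      refine Finset.filter_congr fun y _ => ?_
      rcases zmod2 (e y) with h | h <;> rw [h] <;> simp
    rw [h2]
    have h3 := hp ((rts H l).filter (fun y => e y = 1))
    rw [hc1.neg_one_pow, one_mul] at h3
    convert h3
  · rw [if_neg (by rw [h]; exact one_ne_zero), h]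
    have h2 : (rts H l).filter (fun y => ¬ e y = 1) = (rts H l).filter (fun y => e y = 0) := by
      refine Finset.filter_congr fun y _ => ?_
      rcases zmod2 (e y) with h | h <;> rw [h] <;> simp
    rw [h2]
    have h3 := hp ((rts H l).filter (fun y => e y = 0))
    rw [hc2.neg_one_pow] at h3
    have h4 : -∏ y ∈ (rts H l).filter (fun y => e y = 0), (x - y) =
        ∏ y ∈ (rts H l).filter (fun y => e y = 0), (y - x) := by
      rw [h3]; ring
    convert h4

end

end Pool.Agent.Q150.ESG
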