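import Pool.Agent.Q150.ESG.J3C

/-!
# Project ESG (helper161), job J3, part 4: the zeros close to the zeros of `h`
-/

set_option autoImplicit false

namespace Pool.Agent.Q150.ESG

open Pool.Agent.Q14.ESG (norm_aut norm_int_le_one norm_sub_le' norm_sub_eq norm_D)
open Pool.Agent.Q161.ESG

section

variable {l : ℕ} [Fact l.Prime] {X : Finset (PadicAlgCl l)}

open Classical in
lemma prodXe (hX : ∀ (τ : PadicAlgCl l ≃ₐ[ℚ_[l]] PadicAlgCl l), ∀ x ∈ X, τ x ∈ X)
    (τ : PadicAlgCl l ≃ₐ[ℚ_[l]] PadicAlgCl l) {M : Type*} [CommMonoid M]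
    (φ : PadicAlgCl l → M) (x : PadicAlgCl l) :
    ∏ y ∈ X.erase (τ x), φ y = ∏ y ∈ X.erase x, φ (τ y) := by
  rw [← Finset.filter_ne', ← Finset.filter_ne', Finset.prod_filter, Finset.prod_filter,
    ← prodX hX τ]
  refine Finset.prod_congr rfl fun y _ => ?_
  by_cases h : y = x
  · simp [h]
  · rw [if_pos h, if_pos]
    exact fun h' => h (τ.injective h')

lemma near {D ρ x y : PadicAlgCl l} (h : ‖ρ / D - x‖ < 1) (hxy : ‖x - y‖ = 1) :
    Cg (ρ / D - y) (x - y) := by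
  refine Cg.symm ⟨hxy, ?_⟩
  have h1 : x - y - (ρ / D - y) = -(ρ / D - x) := by ring
  rw [h1, norm_neg]
  exact h

open Classical in
/-- the unit part of `ρ - D x` -/
noncomputable def FF (X : Finset (PadicAlgCl l)) (D ρ x : PadicAlgCl l) : PadicAlgCl l :=
  if ‖ρ / D - x‖ < 1 then ∏ y ∈ X.erase x, (ρ / D - y) else ρ / D - x

open Classical in
/-- the square root part of `ρ - D x` -/
noncomputable def tt (X : Finset (PadicAlgCl l)) (D : PadicAlgCl l) (η : PadicAlgCl l → PadicAlgCl l)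
    (ρ x : PadicAlgCl l) : PadicAlgCl l :=
  if ‖ρ / D - x‖ < 1 then η ρ / ∏ y ∈ X.erase x, (ρ / D - y) else 1

lemma FF_aut (hX : ∀ (τ : PadicAlgCl l ≃ₐ[ℚ_[l]] PadicAlgCl l), ∀ x ∈ X, τ x ∈ X)
    {D : PadicAlgCl l} (hD : ∀ τ : PadicAlgCl l ≃ₐ[ℚ_[l]] PadicAlgCl l, τ D = D)
    (τ : PadicAlgCl l ≃ₐ[ℚ_[l]] PadicAlgCl l) (ρ x : PadicAlgCl l) :
    FF X D (τ ρ) (τ x) = τ (FF X D ρ x) := by
  unfold FF
  have h1 : ∀ y, τ ρ / D - τ y = τ (ρ / D - y) := by
    intro y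
    rw [map_sub, map_div₀, hD]
  rw [h1 x, norm_aut, prodXe hX τ (fun y => τ ρ / D - y) x]
  simp only [h1]
  split_ifs
  · rw [map_prod]
  · rfl

lemma tt_aut (hX : ∀ (τ : PadicAlgCl l ≃ₐ[ℚ_[l]] PadicAlgCl l), ∀ x ∈ X, τ x ∈ X)
    {D : PadicAlgCl l} (hD : ∀ τ : PadicAlgCl l ≃ₐ[ℚ_[l]] PadicAlgCl l, τ D = D)
    {η : PadicAlgCl l → PadicAlgCl l}
    (hη : ∀ (τ : PadicAlgCl l ≃ₐ[ℚ_[l]] PadicAlgCl l) (ρ), η (τ ρ) = τ (η ρ))
    (τ : PadicAlgCl l ≃ₐ[ℚ_[l]] PadicAlgCl l) (ρ x : PadicAlgCl l) :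
    tt X D η (τ ρ) (τ x) = τ (tt X D η ρ x) := by
  unfold tt
  have h1 : ∀ y, τ ρ / D - τ y = τ (ρ / D - y) := by
    intro y
    rw [map_sub, map_div₀, hD]
  rw [h1 x, norm_aut, prodXe hX τ (fun y => τ ρ / D - y) x]
  simp only [h1]
  split_ifs
  · rw [hη, map_div₀, map_prod]
  · rw [map_one]

lemma prod_pow_sum (D : PadicAlgCl l) (R : Multiset (PadicAlgCl l)) (k : PadicAlgCl l → ℕ) :
    (R.map (fun ρ => D ^ k ρ)).prod = D ^ (R.map k).sum := by
  induction R using Multiset.induction with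
  | empty => simp
  | cons ρ R ih =>
    simp only [Multiset.map_cons, Multiset.prod_cons, Multiset.sum_cons, ih, pow_add]

lemma prod_swap (A : Finset (PadicAlgCl l)) (D x : PadicAlgCl l) (R : Multiset (PadicAlgCl l)) :
    (R.map (fun ρ => ∏ y ∈ A, (y - x) ^ (dl D ρ x + dl D ρ y))).prod =
      ∏ y ∈ A, (y - x) ^ (Nn D R x + Nn D R y) := by
  unfold Nn
  induction R using Multiset.induction with
  | empty => simp
  | cons ρ R ih =>
    simp only [Multiset.map_cons, Multiset.prod_cons, Multiset.sum_cons, ih]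
    rw [← Finset.prod_mul_distrib]
    refine Finset.prod_congr rfl fun y _ => ?_
    rw [← pow_add]
    congr 1
    ring

open Classical in
/-- the unit part is congruent to a product of differences of zeros of `h` -/
lemma FF_cg {g : ℕ} (hg : X.card = 2 * g + 1)
    (hXd : ∀ x ∈ X, ∀ y ∈ X, x ≠ y → ‖x - y‖ = 1) {D ρ : PadicAlgCl l}
    (hc : ∃ x ∈ X, ‖ρ / D - x‖ < 1) {x : PadicAlgCl l} (hx : x ∈ X) :
    Cg (FF X D ρ x) (∏ y ∈ X.erase x, (y - x) ^ (dl D ρ x + dl D ρ y)) := by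
  have hfar : ∀ j ∈ X, ‖ρ / D - j‖ < 1 → ∀ y ∈ X, y ≠ j → ¬ ‖ρ / D - y‖ < 1 := by
    intro j hj hj1 y hy hyj h
    have h1 := (near hj1 (hXd j hj y hy hyj.symm)).1
    rw [h1] at h
    exact lt_irrefl _ h
  unfold FF
  by_cases h : ‖ρ / D - x‖ < 1
  · rw [if_pos h]
    have h1 : ∏ y ∈ X.erase x, (y - x) ^ (dl D ρ x + dl D ρ y) = ∏ y ∈ X.erase x, (x - y) := by
      have h2 : ∏ y ∈ X.erase x, (x - y) = ∏ y ∈ X.erase x, (-1) * (y - x) :=
        Finset.prod_congr rfl fun y _ => by ring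
      have h3 : (X.erase x).card = 2 * g := by
        rw [Finset.card_erase_of_mem hx, hg]
        rfl
      rw [h2, Finset.prod_mul_distrib, Finset.prod_const, h3, pow_mul, neg_one_sq, one_pow, one_mul]
      refine Finset.prod_congr rfl fun y hy => ?_
      rw [Finset.mem_erase] at hy
      unfold dl
      rw [if_pos h, if_neg (hfar x hx h y hy.2 hy.1), add_zero, pow_one]
    rw [h1]
    refine Cg.fprod _ _ _ fun y hy => ?_
    rw [Finset.mem_erase] at hy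
    exact near h (hXd x hx y hy.2 hy.1.symm)
  · rw [if_neg h]
    obtain ⟨j, hj, hj1⟩ := hc
    have hjx : j ≠ x := by
      rintro rfl
      exact h hj1
    have h1 : ∏ y ∈ X.erase x, (y - x) ^ (dl D ρ x + dl D ρ y) = j - x := by
      rw [Finset.prod_eq_single_of_mem j (Finset.mem_erase.2 ⟨hjx, hj⟩)]
      · unfold dl
        rw [if_neg h, if_pos hj1, zero_add, pow_one]
      · intro y hy hyj
        rw [Finset.mem_erase] at hy
        unfold dl
        rw [if_neg h, if_neg (hfar j hj hj1 y hy.2 hyj), add_zero, pow_zero]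
    rw [h1]
    exact near hj1 (hXd j hj x hx hjx)

lemma split_eq {g : ℕ} (hg : X.card = 2 * g + 1) {D : PadicAlgCl l} (hD0 : D ≠ 0)
    (hXd : ∀ x ∈ X, ∀ y ∈ X, x ≠ y → ‖x - y‖ = 1) {y : PadicAlgCl l → PadicAlgCl l}
    {ρ : PadicAlgCl l} (hy2 : y ρ ^ 2 = ∏ x ∈ X, (ρ - D * x)) {x : PadicAlgCl l} (hx : x ∈ X) :
    ρ - D * x = tt X D (fun ρ => y ρ / D ^ g) ρ x ^ 2 * FF X D ρ x * D ^ (1 - dl D ρ x) := by
  classical
  unfold tt FF dl
  by_cases h : ‖ρ / D - x‖ < 1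
  · rw [if_pos h, if_pos h, if_pos h]
    have h1 : y ρ ^ 2 = D ^ (2 * g + 1) * ((ρ / D - x) * ∏ y ∈ X.erase x, (ρ / D - y)) := by
      rw [Finset.mul_prod_erase X (fun y => ρ / D - y) hx, hy2, ← hg, ← Finset.prod_const,
        ← Finset.prod_mul_distrib]
      refine Finset.prod_congr rfl fun z _ => ?_
      field_simp
    have h2 : ∏ y ∈ X.erase x, (ρ / D - y) ≠ 0 := by
      refine Finset.prod_ne_zero_iff.2 fun z hz => ?_
      rw [Finset.mem_erase] at hz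
      have h3 := (near h (hXd x hx z hz.2 hz.1.symm)).1
      intro h4
      rw [h4, norm_zero] at h3
      exact zero_ne_one h3
    have h5 : ρ - D * x = D * (ρ / D - x) := by field_simp
    rw [h5, div_pow, div_pow, h1]
    generalize ∏ y ∈ X.erase x, (ρ / D - y) = P at *
    generalize ρ / D - x = z at *
    simp only [Nat.sub_self, pow_zero, mul_one]
    field_simp
    ring
  · rw [if_neg h, if_neg h, if_neg h]
    simp only [Nat.sub_zero, pow_one, one_pow, one_mul]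
    field_simp

end

end Pool.Agent.Q150.ESG
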