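import Pool.Agent.Y723.HJ.Rt

/-!
# Square roots of the values at one Weierstrass point (project ESG, job KLJ)

As `Pool/Agent/Y723/HJ/Rt.lean`, for one zero `α` of `f` instead of all zeros.
-/

set_option autoImplicit false
set_option linter.unusedVariables false

namespace Pool.Agent.Q150.ESG

open Polynomial Ideal
open Pool.Agent.Y723.HJ

section

variable {L : Type*} [Field L] {f : L[X]}

/-- the ideal is prime to the point `(α, 0)` -/
def Gd1 (α : L) (I : Ideal (CR f)) : Prop := I ≠ ⊥ ∧ (nm I).eval α ≠ 0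

lemma Gd1.del [HF f] {α : L} {I : Ideal (CR f)} (h : Gd1 α I) : del α I ≠ 0 :=
  mul_ne_zero (pow_ne_zero _ (neg_ne_zero.2 one_ne_zero)) h.2

lemma Gd1.mul [HF f] {α : L} {I J : Ideal (CR f)} (h : Gd1 α I) (h' : Gd1 α J) :
    Gd1 α (I * J) := by
  refine ⟨mul_ne_bot h.1 h'.1, ?_⟩
  rw [nm_mul h.1 h'.1, eval_mul]
  exact mul_ne_zero h.2 h'.2

lemma Gd1.bar [HF f] {α : L} {I : Ideal (CR f)} (h : Gd1 α I) : Gd1 α (bar I) := by
  refine ⟨bar_ne h.1, ?_⟩
  rw [nm_bar h.1]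
  exact h.2

/-- the square root at one point -/
def Rt1 [HF f] (α : L) (P : ClassGroup (CR f)) (I : Ideal (CR f)) (s : L) : Prop :=
  ∃ (J : Ideal (CR f)) (h : CR f), Gd1 α J ∧ cl J = P ∧ h ≠ 0 ∧
    J ^ 2 * bar I = span {h} ∧ s = val α h / del α J

variable [HF f]

lemma exists_gd1 [Infinite L] {α : L} (hα : f.eval α = 0) (P : ClassGroup (CR f)) :
    ∃ u v : L[X], u.Monic ∧ u ∣ f - v ^ 2 ∧ cl (mi f u v) = P ∧ u.eval α ≠ 0 := by
  classical
  obtain ⟨u, v, hu, huv, rfl⟩ := exists_cl_mi P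
  obtain ⟨u', v', h1, h2, h3, h4⟩ := moving hu huv {α} (by
    intro β hβ
    rw [Finset.mem_singleton.1 hβ]
    exact hα)
  exact ⟨u', v', h1, h2, h3, h4 α (Finset.mem_singleton_self α)⟩

lemma gd1_mi {α : L} {u v : L[X]} (hu : u.Monic) (huv : u ∣ f - v ^ 2)
    (h : u.eval α ≠ 0) : Gd1 α (mi f u v) := by
  refine ⟨mi_ne hu.ne_zero, ?_⟩
  rw [nm_mi hu huv]
  exact h

theorem Rt1.exists [Infinite L] {α : L} (hα : f.eval α = 0) (P : ClassGroup (CR f))
    {I : Ideal (CR f)} (hI : I ≠ ⊥) (h : cl I = P ^ 2) : ∃ s, Rt1 α P I s := by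
  obtain ⟨u, v, hu, huv, rfl, hg⟩ := exists_gd1 hα P
  have hJ := gd1_mi hu huv hg
  have hJ2 : mi f u v ^ 2 ≠ ⊥ := by
    rw [pow_two]; exact mul_ne_bot hJ.1 hJ.1
  have h1 : cl (mi f u v ^ 2 * Pool.Agent.Y723.HJ.bar I) = 1 := by
    rw [cl_mul hJ2 (bar_ne hI), cl_bar hI, h, pow_two (mi f u v), cl_mul hJ.1 hJ.1, pow_two,
      mul_inv_cancel]
  obtain ⟨z, hz, hz'⟩ := cl_one (mul_ne_bot hJ2 (bar_ne hI)) h1
  exact ⟨_, _, z, hJ, rfl, hz, hz', rfl⟩

theorem Rt1.sq {α : L} (hα : f.eval α = 0) {P : ClassGroup (CR f)} {I : Ideal (CR f)} {s : L}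
    (hI : I ≠ ⊥) (h : Rt1 α P I s) : s ^ 2 = Pool.Agent.Y723.HJ.del α I := by
  obtain ⟨J, z, hJ, -, hz, hJz, hs⟩ := h
  have hJ2 : J ^ 2 ≠ ⊥ := by rw [pow_two]; exact mul_ne_bot hJ.1 hJ.1
  rw [hs, div_pow, ← del_span hα hz, ← hJz, del_mul _ hJ2 (bar_ne hI), pow_two J,
    del_mul _ hJ.1 hJ.1, del_bar _ hI]
  have := hJ.del
  field_simp

theorem Rt1.mul {α : L} (hα : f.eval α = 0) {P P' : ClassGroup (CR f)} {I I' : Ideal (CR f)}
    {s s' : L} (h : Rt1 α P I s) (h' : Rt1 α P' I' s') : Rt1 α (P * P') (I * I') (s * s') := by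
  obtain ⟨J, z, hJ, rfl, hz, hJz, hs⟩ := h
  obtain ⟨J', z', hJ', rfl, hz', hJz', hs'⟩ := h'
  refine ⟨J * J', z * z', hJ.mul hJ', cl_mul hJ.1 hJ'.1, mul_ne_zero hz hz', ?_, ?_⟩
  · rw [bar_mul, mul_pow, mul_mul_mul_comm, hJz, hJz', span_singleton_mul_span_singleton]
  · rw [hs, hs', val_mul hα hz hz', del_mul _ hJ.1 hJ'.1, mul_div_mul_comm]

lemma ev_ne_of_gd1 {α : L} (hα : f.eval α = 0) {z : CR f} (h : Gd1 α (span {z})) :
    val α z ≠ 0 := by
  have hz : z ≠ 0 := by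
    rintro rfl
    exact h.1 (by simp)
  have h1 := h.del
  rw [del_span hα hz] at h1
  intro h0
  rw [h0] at h1
  simp at h1

lemma val_CC1 {p : L[X]} (α : L) (hp : p ≠ 0) : val α (CC f p) = p.eval α / p.leadingCoeff := by
  unfold val
  rw [ev_C, lead_C hp]

lemma val_unit1 {α : L} (hα : f.eval α = 0) {z w : CR f} (hz : z ≠ 0) (h : span {z} = span {w}) :
    val α z = val α w := by
  rw [Ideal.span_singleton_eq_span_singleton] at h
  obtain ⟨e, he⟩ := h
  obtain ⟨c, hc, hec⟩ := unit_const e.isUnit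
  have hCc : (C c : L[X]) ≠ 0 := C_ne_zero.2 hc
  rw [← he, hec, val_mul hα hz (CC_ne hCc)]
  have := val_CC1 (f := f) α hCc
  rw [eval_C, leadingCoeff_C, div_self hc] at this
  rw [this, mul_one]

theorem Rt1.unique {α : L} (hα : f.eval α = 0) {P : ClassGroup (CR f)} {I : Ideal (CR f)}
    {s s' : L} (hI : I ≠ ⊥) (h : Rt1 α P I s) (h' : Rt1 α P I s') : s = s' := by
  obtain ⟨J, z, hJ, hP, hz, hJz, hs⟩ := h
  obtain ⟨J', z', hJ', hP', hz', hJz', hs'⟩ := h'
  have h1 : cl (J' * Pool.Agent.Y723.HJ.bar J) = 1 := by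
    rw [cl_mul hJ'.1 (bar_ne hJ.1), cl_bar hJ.1, hP, hP', mul_inv_cancel]
  obtain ⟨k, hk, hk'⟩ := cl_one (mul_ne_bot hJ'.1 (bar_ne hJ.1)) h1
  have hkg : Gd1 α (span {k}) := by
    rw [← hk']
    exact hJ'.mul hJ.bar
  obtain ⟨p, hp⟩ : ∃ p, p = nm J := ⟨_, rfl⟩
  have hpm : p.Monic := by rw [hp]; exact (nm_spec hJ.1).1
  have hp0 : CC f p ≠ 0 := CC_ne hpm.ne_zero
  have h2 : J' * span {CC f p} = span {k} * J := by
    rw [hp, ← (nm_spec hJ.1).2, ← hk']
    ring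
  have h3 : span {z' * (CC f p * CC f p)} = span {k * k * z} := by
    rw [← span_singleton_mul_span_singleton, ← hJz', ← span_singleton_mul_span_singleton,
      ← span_singleton_mul_span_singleton, ← span_singleton_mul_span_singleton, ← hJz]
    calc J' ^ 2 * Pool.Agent.Y723.HJ.bar I * (span {CC f p} * span {CC f p}) =
        (J' * span {CC f p}) * (J' * span {CC f p}) * Pool.Agent.Y723.HJ.bar I := by ring
      _ = _ := by rw [h2]; ring
  have hpg : Gd1 α (span {CC f p}) := by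
    have : span {CC f p} = J * Pool.Agent.Y723.HJ.bar J := by rw [hp, ← (nm_spec hJ.1).2]
    rw [this]
    exact hJ.mul hJ.bar
  have h4 := val_unit1 hα (mul_ne_zero hz' (mul_ne_zero hp0 hp0)) h3
  rw [val_mul hα hz' (mul_ne_zero hp0 hp0), val_mul hα hp0 hp0,
    val_mul hα (mul_ne_zero hk hk) hz, val_mul hα hk hk] at h4
  have h5 := congrArg (Pool.Agent.Y723.HJ.del α) h2
  rw [del_mul _ hJ'.1 hpg.1, del_mul _ hkg.1 hJ.1, del_span hα hp0,
    del_span hα hk] at h5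
  have e1 := ev_ne_of_gd1 hα hpg
  have e2 := ev_ne_of_gd1 hα hkg
  have e3 := hJ.del
  have e4 := hJ'.del
  rw [hs, hs', div_eq_div_iff e3 e4]
  apply mul_right_cancel₀ (mul_ne_zero e1 e1)
  apply mul_right_cancel₀ (mul_ne_zero e2 e2)
  linear_combination (val α z * val α k ^ 2) * h5 - (Pool.Agent.Y723.HJ.del α J * val α k ^ 2) * h4

theorem Rt1.map {E : Type*} [Field E] (φ : L →+* E) {f' : E[X]} [HF f'] (hf : f.map φ = f') {α : L}
    {P : ClassGroup (CR f)} {I : Ideal (CR f)} {s : L} (h : Rt1 α P I s) :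
    Rt1 (φ α) (clmap φ hf P) (I.map (mapR φ hf)) (φ s) := by
  obtain ⟨J, z, hJ, rfl, hz, hJz, hs⟩ := h
  refine ⟨J.map (mapR φ hf), mapR φ hf z, ⟨map_ne _ _ hJ.1, ?_⟩,
    (clmap_cl _ _ hJ.1).symm, mapR_ne _ _ hz, ?_, ?_⟩
  · rw [map_nm _ _ hJ.1, eval_map, eval₂_at_apply, _root_.map_ne_zero]
    exact hJ.2
  · rw [← Ideal.map_pow, ← map_bar, ← Ideal.map_mul, hJz, Ideal.map_span, Set.image_singleton]
  · rw [hs, mapR_val, del_map _ _ _ hJ.1, map_div₀]

end

/-- the moving lemma, prime to all zeros of `f` -/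
theorem movingK {K Ω : Type*} [Field K] [Field Ω] [Infinite K] [Algebra K Ω] [IsAlgClosed Ω]
    {f : K[X]} [HF f] {u v : K[X]} (hu : u.Monic) (h : u ∣ f - v ^ 2) :
    ∃ u' v' : K[X], u'.Monic ∧ u' ∣ f - v' ^ 2 ∧ cl (mi f u' v') = cl (mi f u v) ∧
      IsCoprime u' f := by
  classical
  obtain ⟨c, hc⟩ : ∃ c : K, algebraMap K Ω c ∉
      ((f.map (algebraMap K Ω)).roots.toFinset.image (fun α => -(aeval α v) / aeval α u)) := by
    by_contra hcon
    push Not at hcon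
    have h1 : (Set.range (algebraMap K Ω)).Finite := by
      refine (Finset.finite_toSet ((f.map (algebraMap K Ω)).roots.toFinset.image
        (fun α => -(aeval α v) / aeval α u))).subset ?_
      rintro x ⟨c, rfl⟩
      exact hcon c
    exact Set.infinite_range_of_injective (algebraMap K Ω).injective h1
  have hv1 : ∀ α : Ω, aeval α f = 0 → aeval α u ≠ 0 → aeval α (v + u * C c) ≠ 0 := by
    intro α hα hu0 h0
    apply hc
    rw [Finset.mem_image]
    refine ⟨α, ?_, ?_⟩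
    · rw [Multiset.mem_toFinset, mem_roots', IsRoot.def, eval_map_algebraMap]
      refine ⟨?_, hα⟩
      exact (Polynomial.map_ne_zero_iff (algebraMap K Ω).injective).2
        (HF.toOddM (f := f)).monic.ne_zero
    · rw [map_add, map_mul, aeval_C] at h0
      rw [div_eq_iff hu0]
      linear_combination -h0
  obtain ⟨w, hw⟩ := h
  obtain ⟨v1, hv⟩ : ∃ v1, v1 = v + u * C c := ⟨_, rfl⟩
  obtain ⟨u1, hu1⟩ : u ∣ f - v1 ^ 2 := by
    refine ⟨w - 2 * v * C c - u * C c ^ 2, ?_⟩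
    rw [hv]
    linear_combination hw
  have h0 : u * u1 ≠ 0 := by rw [← hu1]; exact fsub_ne v1
  have hu10 : u1 ≠ 0 := right_ne_zero_of_mul h0
  have hlc : (u1.leadingCoeff)⁻¹ ≠ 0 := inv_ne_zero (leadingCoeff_ne_zero.2 hu10)
  have hcop : IsCoprime u1 f := by
    rw [Polynomial.isCoprime_iff_aeval_ne_zero_of_isAlgClosed K Ω]
    intro α
    by_contra hcon
    push Not at hcon
    obtain ⟨h1, hα⟩ := hcon
    have h2 : aeval α u * aeval α u1 = -(aeval α v1) ^ 2 := by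
      rw [← map_mul, ← hu1, map_sub, hα, map_pow]; ring
    have h3 : aeval α v1 = 0 := by
      rw [h1, mul_zero] at h2
      have : (aeval α v1) ^ 2 = 0 := by linear_combination h2
      exact pow_eq_zero_iff (two_ne_zero) |>.1 this
    by_cases h4 : aeval α u = 0
    · obtain ⟨a, b, c', habc⟩ := cop (f := f) hu1.symm
      have h5 := congrArg (aeval α) habc
      rw [map_add, map_add, map_mul, map_mul, map_mul, h4, h3, h1, map_one] at h5
      simp at h5
    · exact hv1 α hα h4 (by rw [← hv]; exact h3)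
  refine ⟨C (u1.leadingCoeff)⁻¹ * u1, -v1, ?_, ?_, ?_, ?_⟩
  · rw [Monic, leadingCoeff_mul, leadingCoeff_C,
      inv_mul_cancel₀ (leadingCoeff_ne_zero.2 hu10)]
  · rw [neg_sq, hu1]
    refine ⟨C u1.leadingCoeff * u, ?_⟩
    have : C (u1.leadingCoeff)⁻¹ * C u1.leadingCoeff = (1 : K[X]) := by
      rw [← C_mul, inv_mul_cancel₀ (leadingCoeff_ne_zero.2 hu10), C_1]
    linear_combination -u * u1 * this
  · rw [mi_unit hlc, cl_compl hu1.symm, hv, mi_shift]
  · exact (isCoprime_mul_unit_left_left (isUnit_C.2 hlc.isUnit) _ _).2 hcop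

/-- rational representatives of invariant classes -/
theorem fixed_rep1 {K Ω : Type*} [Field K] [Field Ω] [Infinite K] [Algebra K Ω] [IsAlgClosed Ω]
    [IsGalois K Ω] {f : K[X]} [HF f] {f' : Polynomial Ω} [HF f'] (hff : f.map (algebraMap K Ω) = f')
    (hτ : ∀ τ : Ω ≃ₐ[K] Ω, f'.map (τ : Ω →+* Ω) = f')
    (P : ClassGroup (CR f')) (hP : ∀ τ : Ω ≃ₐ[K] Ω, clmap (τ : Ω →+* Ω) (hτ τ) P = P) :
    ∃ u v : K[X], u.Monic ∧ u ∣ f - v ^ 2 ∧ IsCoprime u f ∧
      cl (mi f' (u.map (algebraMap K Ω)) (v.map (algebraMap K Ω))) = P := by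
  obtain ⟨g, hdeg⟩ : ∃ g, f'.natDegree = 2 * g + 1 := (HF.toOddM (f := f')).odd
  obtain ⟨u, v, hu, huv, hug, hvu, hc⟩ := exists_reduced hdeg P
  have hfix : ∀ τ : Ω ≃ₐ[K] Ω,
      u.map (τ : Ω →+* Ω) = u ∧ v.map (τ : Ω →+* Ω) = v := by
    intro τ
    obtain ⟨φ, hφ⟩ : ∃ φ : Ω →+* Ω, φ = τ := ⟨_, rfl⟩
    have hφf : f'.map φ = f' := by rw [hφ]; exact hτ τ
    have h3 : cl (mi f' (u.map φ) (v.map φ)) = cl (mi f' u v) := by
      rw [← clmap_mi φ hφf hu.ne_zero, hc]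
      have := hP τ
      simp only [← hφ] at this
      exact this
    rw [← hφ]
    have huv' : u.map φ ∣ f' - (v.map φ) ^ 2 := by
      have := Polynomial.map_dvd φ huv
      rwa [Polynomial.map_sub, Polynomial.map_pow, hφf] at this
    obtain ⟨e1, e2⟩ := reduced_unique hdeg (hu.map φ) hu huv' huv
      (by rw [natDegree_map]; exact hug) hug h3
    refine ⟨e1, ?_⟩
    have h4 : (⟨-(v.map φ), 1⟩ : CR f') ∈ mi f' u v := by
      rw [← e2]; exact mi_y_mem _ _
    rw [mem_mi huv] at h4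
    have h5 : u ∣ v - v.map φ := by
      convert h4 using 1
      simp only
      ring
    have h6 : (v - v.map φ).degree < u.degree := by
      have h7 : v.degree < u.degree := by
        rw [← hvu]; exact degree_modByMonic_lt v hu
      refine (degree_sub_le _ _).trans_lt ?_
      rw [degree_map, max_self]
      exact h7
    have h7 := eq_zero_of_dvd_of_degree_lt h5 h6
    exact (sub_eq_zero.1 h7).symm
  have hlift : ∀ p : Polynomial Ω, (∀ τ : Ω ≃ₐ[K] Ω, p.map (τ : Ω →+* Ω) = p) →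
      ∃ q : K[X], q.map (algebraMap K Ω) = p := by
    intro p hp
    have h1 : p ∈ Polynomial.lifts (algebraMap K Ω) := by
      rw [lifts_iff_coeff_lifts]
      intro n
      rw [InfiniteGalois.mem_range_algebraMap_iff_fixed]
      intro τ
      have := congrArg (fun q => q.coeff n) (hp τ)
      simp only [coeff_map] at this
      exact this
    exact (mem_lifts p).1 h1
  obtain ⟨u0, rfl⟩ := hlift u fun τ => (hfix τ).1
  obtain ⟨v0, rfl⟩ := hlift v fun τ => (hfix τ).2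
  have hu0 : u0.Monic := by
    rwa [Polynomial.monic_map_iff] at hu
  have huv0 : u0 ∣ f - v0 ^ 2 := by
    rw [← Polynomial.map_dvd_map' (algebraMap K Ω), Polynomial.map_sub,
      Polynomial.map_pow, hff]
    exact huv
  obtain ⟨u', v', h1, h2, h3, h4⟩ := movingK (Ω := Ω) hu0 huv0
  refine ⟨u', v', h1, h2, h4, ?_⟩
  rw [← hc]
  have h5 := congrArg (clmap (algebraMap K Ω) hff) h3
  rwa [clmap_mi _ _ h1.ne_zero, clmap_mi _ _ hu0.ne_zero] at h5

end Pool.Agent.Q150.ESG
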