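import Pool.Agent.Q161.ESG.Stm5
import Pool.Agent.Q150.ESG.R1
import Pool.Agent.Y723.HJ.Kum
import Pool.Agent.Q239.EL.DESC

/-!
# Project ESG (helper161), job KLJ: local solubility
-/

set_option autoImplicit false
set_option linter.unusedVariables false

namespace Pool.Agent.Q150.ESG

open Polynomial NumberField
open Pool.Agent.Y723.HJ (CR OddM HF nm cl val del mi clmap mapR bar)
open Pool.Agent.Q51.EL (Setup)
open Pool.Agent.Q161.ESG

section emb

variable {L : Type} [Field L] [NumberField L] {θ : L}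

/-- an embedding is determined by the image of `θ` -/
lemma emb_injJ {h : ℤ[X]} (hs : Setup h L θ) (Ω : Type) [Field Ω] [Algebra ℚ Ω] [IsAlgClosed Ω] :
    Function.Injective (fun e : L →ₐ[ℚ] Ω => e θ) := by
  refine (Field.primitive_element_iff_algHom_eq_of_eval' ℚ Ω (fun x => IsAlgClosed.splits _) θ).1 ?_
  rw [Field.primitive_element_iff_minpoly_natDegree_eq]
  exact Pool.Agent.Q239.EL.theta_deg hs

lemma emb_rootJ (H : HP) (hs : Setup H.pol L θ) {Ω : Type} [Field Ω] [Algebra ℚ Ω]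
    (e : L →ₐ[ℚ] Ω) : (pol H Ω).eval (e θ) = 0 := by
  have h1 := congrArg (e : L →+* Ω) hs.root
  rw [aeval_def, hom_eval₂, map_zero] at h1
  unfold pol
  rw [eval_map]
  have h2 : (e : L →+* Ω).comp (algebraMap ℤ L) = Int.castRingHom Ω := RingHom.ext_int _ _
  rw [← h2]
  exact h1

lemma twist_root (H : HP) (D : ℤ) {E : Type} [Field E] {x : E} (hx : (pol H E).eval x = 0) :
    (pol (H.twist D) E).eval ((D : E) * x) = 0 := by
  unfold pol at *
  rw [eval_map] at *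
  exact scaleRoots_eval₂_eq_zero (Int.castRingHom E) hx

/-- the embeddings into a larger field -/
theorem emb_liftJ (Ω : Type) [Field Ω] [Algebra ℚ Ω] [IsAlgClosed Ω] (ι : QB →ₐ[ℚ] Ω)
    (e : L →ₐ[ℚ] Ω) : ∃ e' : L →ₐ[ℚ] QB, ι.comp e' = e := by
  have hinj : Function.Injective (fun e' : L →ₐ[ℚ] QB => ι.comp e') := by
    intro a b hab
    ext x
    have := DFunLike.congr_fun hab x
    exact ι.injective this
  have hcard : Fintype.card (L →ₐ[ℚ] QB) = Fintype.card (L →ₐ[ℚ] Ω) := by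
    rw [AlgHom.card ℚ L Ω, AlgHom.card ℚ L QB]
  have hbij := (Fintype.bijective_iff_injective_and_card _).2 ⟨hinj, hcard⟩
  exact hbij.2 e

lemma pol_prod (H : HP) (hs : Setup H.pol L θ) (Ω : Type) [Field Ω] [Algebra ℚ Ω]
    [IsAlgClosed Ω] : pol H Ω = ∏ e : L →ₐ[ℚ] Ω, (X - C (e θ)) := by
  classical
  have hinj := emb_injJ hs Ω
  refine Polynomial.eq_of_monic_of_dvd_of_natDegree_le
    (monic_prod_of_monic _ _ fun e _ => monic_X_sub_C _) (H.monic.map _) ?_ ?_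
  · apply Finset.prod_dvd_of_coprime
    · intro a _ b _ hab
      exact isCoprime_X_sub_C_of_isUnit_sub (IsUnit.mk0 _ (sub_ne_zero.2 (fun h => hab (hinj h))))
    · intro e _
      rw [dvd_iff_isRoot]
      exact emb_rootJ H hs e
  · rw [natDegree_prod_of_monic _ _ fun e _ => monic_X_sub_C _]
    simp only [natDegree_X_sub_C, Finset.sum_const, Finset.card_univ, smul_eq_mul, mul_one]
    rw [AlgHom.card, hs.deg]
    unfold pol
    exact natDegree_map_le

/-- divisibility -/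
lemma dvd_ofJ (H : HP) (hs : Setup H.pol L θ) (K Ω : Type) [Field K] [Field Ω]
    [Algebra K Ω] [Algebra ℚ Ω] [IsAlgClosed Ω] (Q : K[X])
    (hQ : ∀ e : L →ₐ[ℚ] Ω, aeval (e θ) Q = 0) : pol H K ∣ Q := by
  classical
  have hinj := emb_injJ hs Ω
  rw [← Polynomial.map_dvd_map' (algebraMap K Ω), pol_map, pol_prod H hs Ω]
  apply Finset.prod_dvd_of_coprime
  · intro a _ b _ hab
    exact isCoprime_X_sub_C_of_isUnit_sub (IsUnit.mk0 _ (sub_ne_zero.2 (fun h => hab (hinj h))))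
  · intro e _
    rw [dvd_iff_isRoot, IsRoot.def, eval_map_algebraMap]
    exact hQ e

/-- interpolation -/
theorem itpJ {h : ℤ[X]} (hs : Setup h L θ) (K Ω : Type) [Field K] [Field Ω] [Algebra ℚ K]
    [Algebra K Ω] [Algebra ℚ Ω] [IsScalarTower ℚ K Ω] [IsAlgClosed Ω] [IsGalois K Ω]
    (hh : (L →ₐ[ℚ] Ω) → Ω)
    (hinv : ∀ (τ : Ω ≃ₐ[K] Ω) (e : L →ₐ[ℚ] Ω),
      τ (hh ((τ.symm.toAlgHom.restrictScalars ℚ).comp e)) = hh e) :
    ∃ g : K[X], ∀ e : L →ₐ[ℚ] Ω, aeval (e θ) g = hh e := by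
  classical
  have hi := emb_injJ hs Ω
  have hi' : Set.InjOn (fun e : L →ₐ[ℚ] Ω => e θ) (Finset.univ : Finset (L →ₐ[ℚ] Ω)) := hi.injOn
  obtain ⟨p, hp⟩ : ∃ p, p = Lagrange.interpolate Finset.univ (fun e : L →ₐ[ℚ] Ω => e θ) hh :=
    ⟨_, rfl⟩
  have hev : ∀ e : L →ₐ[ℚ] Ω, p.eval (e θ) = hh e := fun e => by
    rw [hp]
    exact Lagrange.eval_interpolate_at_node hh hi' (Finset.mem_univ e)
  have hdeg : p.degree < (Finset.univ : Finset (L →ₐ[ℚ] Ω)).card := by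
    rw [hp]
    exact Lagrange.degree_interpolate_lt hh hi'
  have hfix : ∀ τ : Ω ≃ₐ[K] Ω, p.map (τ : Ω →+* Ω) = p := by
    intro τ
    have h1 : p.map (τ : Ω →+* Ω) =
        Lagrange.interpolate Finset.univ (fun e : L →ₐ[ℚ] Ω => e θ) hh := by
      refine Lagrange.eq_interpolate_of_eval_eq hh hi' (lt_of_le_of_lt degree_map_le hdeg) ?_
      intro e _
      have h2 := hinv τ e
      rw [← hev] at h2
      rw [← h2]
      have h3 : e θ = (τ : Ω →+* Ω) (τ.symm (e θ)) := (τ.apply_symm_apply _).symm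
      show eval (e θ) (p.map (τ : Ω →+* Ω)) = (τ : Ω →+* Ω) (p.eval (τ.symm (e θ)))
      conv_lhs => rw [h3]
      rw [eval_map_apply]
    rw [h1, ← hp]
  have hl : p ∈ lifts (algebraMap K Ω) := by
    rw [lifts_iff_coeff_lifts]
    intro n
    rw [InfiniteGalois.mem_range_algebraMap_iff_fixed]
    intro τ
    have h2 := congrArg (fun r => r.coeff n) (hfix τ)
    simp only [coeff_map] at h2
    exact h2
  rw [mem_lifts] at hl
  obtain ⟨g, hg⟩ := hl
  refine ⟨g, fun e => ?_⟩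
  rw [← hev e, ← hg, eval_map, aeval_def]

end emb

section sign

variable {H : HP} {E : Type} [Field E]

lemma bar_top {f : E[X]} : bar (⊤ : Ideal (CR f)) = ⊤ := by
  unfold bar
  exact Ideal.map_top _

lemma cl_top {f : E[X]} [HF f] : cl (⊤ : Ideal (CR f)) = 1 := by
  have h1 : (⊤ : Ideal (CR f)) = Ideal.span {1} := Ideal.span_singleton_one.symm
  rw [h1]
  exact Pool.Agent.Y723.HJ.cl_span one_ne_zero

lemma rt_sgp [HF (pol H E)] {T : Jac H E} {x s : E} :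
    Rt1 (f := pol H E) x (T : ClassGroup (CR (pol H E))) ⊤ s ↔ SgP H E T x s := by
  constructor
  · rintro ⟨J, z, ⟨h1, h2⟩, h3, h4, h5, h6⟩
    refine ⟨J, z, h1, h2, h3, h4, ?_, h6⟩
    rw [bar_top, Ideal.mul_top] at h5
    exact h5
  · rintro ⟨J, z, h1, h2, h3, h4, h5, h6⟩
    refine ⟨J, z, ⟨h1, h2⟩, h3, h4, ?_, h6⟩
    rw [bar_top, Ideal.mul_top]
    exact h5

lemma sg_rt [Infinite E] [HF (pol H E)] {T : Jac H E} (hT : T + T = 0) {x : E}
    (hx : (pol H E).eval x = 0) :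
    Rt1 (f := pol H E) x (T : ClassGroup (CR (pol H E))) ⊤ (sg H T x) := by
  have h1 : ∀ T' : ClassGroup (CR (pol H E)), T' * T' = 1 →
      cl (⊤ : Ideal (CR (pol H E))) = T' ^ 2 := by
    intro T' h
    rw [cl_top, pow_two, h]
  obtain ⟨s, hs⟩ := Rt1.exists (f := pol H E) hx T top_ne_bot (h1 T hT)
  have hex : ∃ s, SgP H E T x s := ⟨s, rt_sgp.1 hs⟩
  unfold sg
  rw [dif_pos hex]
  exact rt_sgp.2 hex.choose_spec

end sign

section main

variable {L : Type} [Field L] [NumberField L] {θ : L}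
variable {K Ω : Type} [Field K] [Field Ω] [CharZero K] [Algebra ℚ K] [Algebra K Ω] [Algebra ℚ Ω]
  [IsScalarTower ℚ K Ω] [IsAlgClosed Ω] [IsGalois K Ω]

lemma hf_map {H : HP} {E E' : Type} [Field E] [Field E'] (φ : E →+* E') [h : HF (pol H E)] :
    HF (pol H E') :=
  { instOddM H E' with
    sep := by
      rw [← pol_map H φ]
      exact h.sep.map
    two := by
      intro h2
      apply h.two
      apply φ.injective
      rw [map_zero, map_ofNat]
      exact h2 }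

lemma hf_desc {H : HP} {E E' : Type} [Field E] [Field E'] (φ : E →+* E') [h : HF (pol H E')] :
    HF (pol H E) :=
  { instOddM H E with
    sep := by
      have := h.sep
      rw [← pol_map H φ, Polynomial.separable_map] at this
      exact this
    two := by
      intro h2
      apply h.two
      rw [← map_ofNat φ, h2, map_zero] }

/-- the local step -/
theorem klj_main (H : HP) (hs : Setup H.pol L θ) (D : ℤ) [hHF : HF (pol (H.twist D) QB)]
    (f : GQ → Jac (H.twist D) QB) (γ : (L →ₐ[ℚ] QB) → QB) (δ : L)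
    (hf : ∀ σ, f σ + f σ = 0) (hK : KDJ H D θ f γ δ)
    (ι : QB →ₐ[ℚ] Ω) (P : Jac (H.twist D) Ω)
    (res : (Ω ≃ₐ[K] Ω) → GQ) (hres : ∀ (τ : Ω ≃ₐ[K] Ω) (x : QB), τ (ι x) = ι (res τ x))
    (hP : ∀ τ : Ω ≃ₐ[K] Ω, pointMap (H.twist D) (ι : QB →+* Ω) (f (res τ)) =
      pointMap (H.twist D) (τ : Ω →+* Ω) P - P)
    (d : ℚ[X]) (hd : aeval θ d = δ) : LocX H D K d := by
  have hcz : CharZero Ω := algebraRat.charZero Ω
  have hczQ : CharZero QB := algebraRat.charZero QB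
  have hΩ : HF (pol (H.twist D) Ω) := hf_map (ι : QB →+* Ω)
  have hKF : HF (pol (H.twist D) K) := hf_desc (algebraMap K Ω)
  obtain ⟨T, hT⟩ : ∃ T : (Ω ≃ₐ[K] Ω) → Jac (H.twist D) Ω,
      ∀ τ, T τ = pointMap (H.twist D) (ι : QB →+* Ω) (f (res τ)) := ⟨_, fun _ => rfl⟩
  have hT2 : ∀ τ, T τ + T τ = 0 := by
    intro τ
    rw [hT, ← pointMap_add, hf, pointMap_zero]
  have hTP : ∀ τ : Ω ≃ₐ[K] Ω, pointMap (H.twist D) (τ : Ω →+* Ω) P = P + T τ := by
    intro τ
    rw [hT, hP]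
    abel
  have hPP : ∀ τ : Ω ≃ₐ[K] Ω, pointMap (H.twist D) (τ : Ω →+* Ω) (P + P) = P + P := by
    intro τ
    rw [pointMap_add, hTP, add_add_add_comm, hT2, add_zero]
  obtain ⟨u, v, hu, huv, hcop, hc⟩ := fixed_rep1 (K := K) (Ω := Ω) (f := pol (H.twist D) K)
    (f' := pol (H.twist D) Ω) (pol_map _ (algebraMap K Ω)) (fun τ => pol_map _ (τ : Ω →+* Ω))
    (P + P) hPP
  have hum : (u.map (algebraMap K Ω)).Monic := hu.map _
  have huvm : u.map (algebraMap K Ω) ∣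
      pol (H.twist D) Ω - (v.map (algebraMap K Ω)) ^ 2 := by
    have := Polynomial.map_dvd (algebraMap K Ω) huv
    rwa [Polynomial.map_sub, Polynomial.map_pow, pol_map] at this
  obtain ⟨I, hI⟩ : ∃ I, I = mi (pol (H.twist D) Ω) (u.map (algebraMap K Ω))
    (v.map (algebraMap K Ω)) := ⟨_, rfl⟩
  rw [← hI] at hc
  have hI0 : I ≠ ⊥ := by rw [hI]; exact Pool.Agent.Y723.HJ.mi_ne hum.ne_zero
  have hx : ∀ e : L →ₐ[ℚ] Ω, (pol (H.twist D) Ω).eval ((D : Ω) * e θ) = 0 :=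
    fun e => twist_root H D (emb_rootJ H hs e)
  have hcl : ∀ P' : ClassGroup (CR (pol (H.twist D) Ω)), cl I = P' * P' → cl I = P' ^ 2 := by
    intro P' h
    rw [pow_two, h]
  have hex : ∀ e : L →ₐ[ℚ] Ω, ∃ s, Rt1 (f := pol (H.twist D) Ω) ((D : Ω) * e θ) P I s :=
    fun e => Rt1.exists (hx e) P hI0 (hcl P hc)
  choose s hs' using hex
  have hsq : ∀ e, s e ^ 2 = (-1) ^ u.natDegree * aeval ((D : Ω) * e θ) u := by
    intro e
    rw [Rt1.sq (hx e) hI0 (hs' e)]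
    unfold del
    rw [hI, Pool.Agent.Y723.HJ.nm_mi hum huvm, natDegree_map, eval_map, aeval_def]
  have hgal : ∀ (τ : Ω ≃ₐ[K] Ω) (e e' : L →ₐ[ℚ] Ω), (∀ z, τ (e z) = e' z) →
      τ (s e) = s e' * sg (H.twist D) (T τ) ((D : Ω) * e' θ) := by
    intro τ e e' h
    have h1 := Rt1.map (τ : Ω →+* Ω) (f' := pol (H.twist D) Ω)
      (pol_map (H.twist D) (τ : Ω →+* Ω)) (hs' e)
    have h2 : I.map (mapR (τ : Ω →+* Ω) (pol_map (H.twist D) (τ : Ω →+* Ω))) = I := by
      rw [hI, Pool.Agent.Y723.HJ.map_mi, Polynomial.map_map, Polynomial.map_map]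
      have : (τ : Ω →+* Ω).comp (algebraMap K Ω) = algebraMap K Ω := by
        ext x
        exact τ.commutes x
      rw [this]
    have h3 : (τ : Ω →+* Ω) ((D : Ω) * e θ) = (D : Ω) * e' θ := by
      rw [map_mul, map_intCast]
      exact congrArg _ (h θ)
    have h4 := Rt1.mul (hx e') (hs' e') (sg_rt (hT2 τ) (hx e'))
    rw [Ideal.mul_top] at h4
    rw [h2, h3] at h1
    have h5 := hTP τ
    have h6 : ∀ Q : ClassGroup (CR (pol (H.twist D) Ω)),
        clmap (τ : Ω →+* Ω) (pol_map (H.twist D) (τ : Ω →+* Ω)) P = Q →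
        Rt1 (f := pol (H.twist D) Ω) ((D : Ω) * e' θ) Q I ((τ : Ω →+* Ω) (s e)) := by
      intro Q hQ
      rw [← hQ]
      exact h1
    exact Rt1.unique (hx e') hI0 (h6 _ h5) h4
  -- the signs
  have hsg2 : ∀ (τ : Ω ≃ₐ[K] Ω) (e : L →ₐ[ℚ] Ω),
      sg (H.twist D) (T τ) ((D : Ω) * e θ) ^ 2 = 1 := by
    intro τ e
    have h1 := Rt1.sq (hx e) (top_ne_bot) (sg_rt (hT2 τ) (hx e))
    rw [h1]
    have h2 : (⊤ : Ideal (CR (pol (H.twist D) Ω))) = Ideal.span {1} :=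
      Ideal.span_singleton_one.symm
    rw [h2, Pool.Agent.Y723.HJ.del_span (hx e) one_ne_zero]
    have h3 := val_CC1 (f := pol (H.twist D) Ω) ((D : Ω) * e θ)
      (one_ne_zero : (1 : Polynomial Ω) ≠ 0)
    unfold Pool.Agent.Y723.HJ.CC at h3
    rw [map_one] at h3
    rw [h3, eval_one, leadingCoeff_one, div_one, one_pow]
  choose r hr using emb_liftJ (L := L) Ω ι
  have hrv : ∀ (e : L →ₐ[ℚ] Ω) (z : L), ι (r e z) = e z := fun e z =>
    DFunLike.congr_fun (hr e) z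
  have hsgι : ∀ (τ : Ω ≃ₐ[K] Ω) (e : L →ₐ[ℚ] Ω),
      ι (sg (H.twist D) (f (res τ)) ((D : QB) * r e θ)) =
        sg (H.twist D) (T τ) ((D : Ω) * e θ) := by
    intro τ e
    have hx' : (pol (H.twist D) QB).eval ((D : QB) * r e θ) = 0 :=
      twist_root H D (emb_rootJ H hs (r e))
    have h1 := Rt1.map (ι : QB →+* Ω) (f' := pol (H.twist D) Ω)
      (pol_map (H.twist D) (ι : QB →+* Ω)) (sg_rt (hf (res τ)) hx')
    have h3 : (ι : QB →+* Ω) ((D : QB) * r e θ) = (D : Ω) * e θ := by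
      rw [map_mul, map_intCast]
      exact congrArg _ (hrv e θ)
    rw [h3, Ideal.map_top] at h1
    have h6 : ∀ Q : ClassGroup (CR (pol (H.twist D) Ω)),
        clmap (ι : QB →+* Ω) (pol_map (H.twist D) (ι : QB →+* Ω)) (f (res τ)) = Q →
        Rt1 (f := pol (H.twist D) Ω) ((D : Ω) * e θ) Q ⊤
          ((ι : QB →+* Ω) (sg (H.twist D) (f (res τ)) ((D : QB) * r e θ))) := by
      intro Q hQ
      rw [← hQ]
      exact h1
    exact Rt1.unique (hx e) top_ne_bot (h6 _ (hT τ).symm) (sg_rt (hT2 τ) (hx e))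
  obtain ⟨G, hG⟩ := itpJ hs K Ω (fun e => s e * ι (γ (r e))) (by
    intro τ e
    have h1 : r ((τ.symm.toAlgHom.restrictScalars ℚ).comp e) =
        (res τ).symm.toAlgHom.comp (r e) := by
      ext z
      apply ι.injective
      show ι (r ((τ.symm.toAlgHom.restrictScalars ℚ).comp e) z) = ι ((res τ).symm (r e z))
      rw [hrv]
      show τ.symm (e z) = ι ((res τ).symm (r e z))
      apply τ.injective
      rw [τ.apply_symm_apply, hres, (res τ).apply_symm_apply, hrv]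
    show τ (s ((τ.symm.toAlgHom.restrictScalars ℚ).comp e) *
      ι (γ (r ((τ.symm.toAlgHom.restrictScalars ℚ).comp e)))) = s e * ι (γ (r e))
    rw [h1, map_mul, hres, hK.gal, map_mul, hsgι,
      hgal τ ((τ.symm.toAlgHom.restrictScalars ℚ).comp e) e (fun z => τ.apply_symm_apply _)]
    have h2 := hsg2 τ e
    linear_combination (s e * ι (γ (r e))) * h2)
  refine ⟨u, v, G, hu, huv, hcop, dvd_ofJ H hs K Ω _ (fun e => ?_)⟩
  have hcomp : (algebraMap K Ω).comp (Rat.castHom K) = algebraMap ℚ Ω := Subsingleton.elim _ _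
  have h4 : aeval (e θ) (d.map (Rat.castHom K)) = e δ := by
    rw [aeval_def, eval₂_map, hcomp, ← aeval_def, ← hd]
    exact (Polynomial.aeval_algHom_apply e θ d)
  have h5 : ι (γ (r e)) ^ 2 = e δ := by
    rw [← map_pow, hK.sq, hrv]
  have h6 : aeval (e θ) (G ^ 2) = s e ^ 2 * ι (γ (r e)) ^ 2 := by
    rw [map_pow, hG, mul_pow]
  have h7 : aeval (e θ) (C ((-1 : K) ^ u.natDegree)) = (-1 : Ω) ^ u.natDegree := by
    rw [aeval_C, map_pow, map_neg, map_one]
  have h8 : aeval (e θ) (u.comp (C (D : K) * X)) = aeval ((D : Ω) * e θ) u := by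
    rw [aeval_comp, map_mul, aeval_C, aeval_X, map_intCast]
  rw [map_sub, map_mul, map_mul, h6, h7, h8, h4, hsq, h5]
  ring

theorem galQBJ : IsGalois ℚ QB := by
  have h : @IsGalois ℚ _ QB _ (AlgebraicClosure.instAlgebra ℚ) := inferInstance
  convert h
  exact Subsingleton.elim _ _

/-- the local step -/
theorem klj_main2 (H : HP) (hs : Setup H.pol L θ) (D : ℤ) [hHF : HF (pol (H.twist D) QB)]
    (f : GQ → Jac (H.twist D) QB) (γ : (L →ₐ[ℚ] QB) → QB) (δ : L)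
    (hf : ∀ σ, f σ + f σ = 0) (hK : KDJ H D θ f γ δ)
    (hloc : ∀ ι : QB →ₐ[ℚ] Ω, ∃ P : Jac (H.twist D) Ω, ∀ (τ : Ω ≃ₐ[K] Ω) (σ : GQ),
      (∀ x : QB, τ (ι x) = ι (σ x)) → pointMap (H.twist D) (ι : QB →+* Ω) (f σ) =
        pointMap (H.twist D) (τ : Ω →+* Ω) P - P)
    (d : ℚ[X]) (hd : aeval θ d = δ) : LocX H D K d := by
  have hgQ := galQBJ
  obtain ⟨ι⟩ : Nonempty (QB →ₐ[ℚ] Ω) := ⟨IsAlgClosed.lift⟩
  obtain ⟨P, hP⟩ := hloc ι
  choose res hres using Pool.Agent.Y723.HJ.exists_restrict (K := ℚ) (Ω := QB) (F := K)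
    (Ω' := Ω) ι
  exact klj_main (K := K) (Ω := Ω) H hs D f γ δ hf hK ι P res hres
    (fun τ => hP τ (res τ) (hres τ)) d hd

end main

/-- the local step -/
theorem klj_K (H : HP) {L : Type} [Field L] [NumberField L] {θ : L} (hs : Setup H.pol L θ)
    (D : ℤ) [hHF : HF (pol (H.twist D) QB)] (f : GQ → Jac (H.twist D) QB)
    (γ : (L →ₐ[ℚ] QB) → QB) (δ : L) (hf : ∀ σ, f σ + f σ = 0) (hK : KDJ H D θ f γ δ)
    (K : Type) [Field K] [CharZero K] [Algebra ℚ K] (hloc : LocallyTrivial (H.twist D) K f)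
    (d : ℚ[X]) (hd : aeval θ d = δ) : LocX H D K d :=
  @klj_main2 L _ _ θ K (AlgebraicClosure K) _ _ _ _ _ (AlgebraicClosure.instAlgebra K)
    inferInstance _ _ H hs D _ f γ δ hf hK hloc d hd

theorem klj' : S_KLJ := by
  intro H L _ _ θ hs D _ hD f γ δ hf hK p _ hloc d hd
  exact klj_K H hs D f γ δ hf hK ℚ_[p] hloc d hd

/-- JOB KLJ -/
theorem klj : S_SGP → S_KLJ := fun _ => klj'

end Pool.Agent.Q150.ESG
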